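import Pool.Agent.Lib.PL5.Defs

/-!
Module PL5.Lev: change of variables `τ = h^(3/2)`.

`intervalIntegral.integral_comp_mul_deriv` with `f h = h ^ (3/2)`, `f' h = 3/2 * h ^ (1/2)` (continuous), on `[u,v]`;
for `h ≥ 0`: `(h^(3/2))^(2/3) = h`, `(h^(3/2))² = h³`, and
`3h - h³ - 2 Eu u v = (h-u)(v-h)(h+u+v)` because of `u² + uv + v² = 3`.
-/

open MeasureTheory Set

namespace PL5

theorem lev {u v : ℝ} (hu : 0 ≤ u) (huv : u ≤ v) (h : u ^ 2 + u * v + v ^ 2 = 3) :
    ∫ τ in (u ^ ((3 : ℝ) / 2))..(v ^ ((3 : ℝ) / 2)), ka (Eu u v) τ =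
      3 / 2 * ∫ h in u..v, Real.sqrt h * Real.sqrt ((h - u) * (v - h) * (h + u + v)) := by
  have hd : ∀ x ∈ uIcc u v, HasDerivAt (fun x : ℝ => x ^ ((3 : ℝ) / 2))
      ((3 : ℝ) / 2 * x ^ ((3 : ℝ) / 2 - 1)) x := by
    intro x _
    exact Real.hasDerivAt_rpow_const (Or.inr (by norm_num))
  have hc : ContinuousOn (fun x : ℝ => (3 : ℝ) / 2 * x ^ ((3 : ℝ) / 2 - 1)) (uIcc u v) := by
    refine Continuous.continuousOn ?_
    exact continuous_const.mul
      (continuous_id.rpow_const (fun x => Or.inr (by norm_num)))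
  have hg : Continuous (ka (Eu u v)) := by
    unfold ka
    refine Real.continuous_sqrt.comp ?_
    exact ((continuous_const.mul
      (continuous_id.rpow_const (fun x => Or.inr (by norm_num)))).sub
        (continuous_id.pow 2)).sub continuous_const
  rw [← intervalIntegral.integral_comp_mul_deriv hd hc hg, ← intervalIntegral.integral_const_mul]
  refine intervalIntegral.integral_congr ?_
  intro x hx
  rw [uIcc_of_le huv] at hx
  have hx0 : 0 ≤ x := hu.trans hx.1
  have e1 : (x ^ ((3 : ℝ) / 2)) ^ ((2 : ℝ) / 3) = x := by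
    rw [← Real.rpow_mul hx0]
    norm_num
  have e2 : (x ^ ((3 : ℝ) / 2)) ^ 2 = x ^ 3 := by
    rw [← Real.rpow_natCast (x ^ ((3 : ℝ) / 2)) 2, ← Real.rpow_mul hx0,
      ← Real.rpow_natCast x 3]
    norm_num
  have e3 : x ^ ((3 : ℝ) / 2 - 1) = Real.sqrt x := by
    rw [Real.sqrt_eq_rpow]
    norm_num
  have e4 : 3 * x - x ^ 3 - 2 * Eu u v = (x - u) * (v - x) * (x + u + v) := by
    unfold Eu
    linear_combination (-x) * h
  simp only [Function.comp, ka]
  rw [e1, e2, e3, e4]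
  ring

end PL5
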