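import Pool.Agent.Lib.PL5.Gam
import Pool.Agent.Lib.PL5.Lev

/-!
Module PL5.Cell1: the one-dimensional inequality on a cell.

Let `F` have its minimum on `[t,t']` at `x1` and its maximum at `x2`, `F x2 > 0`.  `a = (F x1 / F x2)^(2/3) ∈ [0,1]`,
`v = √(3/(1+a+a²))`, `u = a v`, `μ = F x2 / v^(3/2)`, `lam = μ^(2/3)`, `G = F/μ`: the range of `G` on `[t,t']` is in
`[u^(3/2), v^(3/2)]`, with the ends attained, and the integral is `μ²` times `∫ G'² - G² + 3 G^(2/3)`, `lam³ = μ²`.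
(`norm`): for `G` with these properties, with `E = Eu u v` (`0 ≤ E ≤ 1`), `3 G^(2/3) - G² - 2E = ka E G ² ` on `[t,t']`
(nonnegative there: with `h = G^(2/3) ∈ [u,v]` it is `(h-u)(v-h)(h+u+v)`), so
`G'² - G² + 3 G^(2/3) = G'² + ka² + 2E ≥ 2 ka |G'| + 2E`; and `∫_(t)^(t') ka(G) |G'| ≥ |∫_(x1)^(x2) ka(G) G'| = ∫ ka` over
`[u^(3/2), v^(3/2)]` (FTC: `K τ = ∫_0^τ ka` is C¹, `K ∘ G` is absolutely continuous; see `PL3.ibp` for the use of
`AbsolutelyContinuousOnInterval`), which is `≥ c0 (1 - E)` by `lev`, `gam`.  So the integral is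
`≥ 2 c0 (1 - E) + 2 E w ≥ 2 min(w, c0)`.
-/

open MeasureTheory Set
open scoped NNReal

namespace PL5

namespace Cell1Aux

/-- change of variables for a Lipschitz inner function -/
theorem ftc {G : ℝ → ℝ} {K : ℝ≥0} (hG : LipschitzWith K G) {k : ℝ → ℝ} (hk : Continuous k)
    (a b : ℝ) :
    ∫ x in a..b, k (G x) * deriv G x = ∫ τ in (G a)..(G b), k τ := by
  have hPd : ∀ y, HasDerivAt (fun y : ℝ => ∫ τ in (0 : ℝ)..y, k τ) (k y) y := fun y =>
    intervalIntegral.integral_hasDerivAt_right (hk.intervalIntegrable _ _)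
      (hk.stronglyMeasurableAtFilter _ _) hk.continuousAt
  obtain ⟨M, hM⟩ : ∃ M : ℝ, ∀ x ∈ uIcc a b, |G x| ≤ M := by
    obtain ⟨M, hM⟩ := (isCompact_uIcc (a := a) (b := b)).exists_bound_of_continuousOn
      hG.continuous.continuousOn
    exact ⟨M, fun x hx => by simpa [Real.norm_eq_abs] using hM x hx⟩
  obtain ⟨C, hC⟩ : ∃ C : ℝ≥0, LipschitzOnWith C (fun y : ℝ => ∫ τ in (0 : ℝ)..y, k τ)
      (Icc (-M) M) := by
    obtain ⟨C, hC⟩ := (isCompact_Icc (a := -M) (b := M)).exists_bound_of_continuousOn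
      hk.continuousOn
    refine ⟨Real.toNNReal C, (convex_Icc (-M) M).lipschitzOnWith_of_nnnorm_deriv_le
      (fun x _ => (hPd x).differentiableAt) (fun x hx => ?_)⟩
    rw [(hPd x).deriv]
    have h1 := hC x hx
    have h2 : (0 : ℝ) ≤ C := (norm_nonneg _).trans h1
    rw [← NNReal.coe_le_coe, coe_nnnorm, Real.coe_toNNReal _ h2]
    exact h1
  have hcomp : LipschitzOnWith (C * K) ((fun y : ℝ => ∫ τ in (0 : ℝ)..y, k τ) ∘ G)
      (uIcc a b) :=
    hC.comp hG.lipschitzOnWith (fun x hx => abs_le.1 (hM x hx))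
  have h1 := hcomp.absolutelyContinuousOnInterval.integral_deriv_eq_sub
  have h2 : ∫ x in a..b, k (G x) * deriv G x =
      ∫ x in a..b, deriv ((fun y : ℝ => ∫ τ in (0 : ℝ)..y, k τ) ∘ G) x := by
    apply intervalIntegral.integral_congr_ae
    filter_upwards [hG.ae_differentiableAt_real] with x hx _
    exact (((hPd (G x)).comp x hx.hasDerivAt).deriv).symm
  rw [h2, h1]
  simp only [Function.comp]
  exact intervalIntegral.integral_interval_sub_left (hk.intervalIntegrable _ _)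
    (hk.intervalIntegrable _ _)

theorem deriv_bd {f : ℝ → ℝ} {K : ℝ≥0} (hf : LipschitzWith K f) (x : ℝ) : |deriv f x| ≤ K := by
  have := norm_deriv_le_of_lipschitz (x₀ := x) hf
  rwa [Real.norm_eq_abs] at this

theorem ii_sq {f : ℝ → ℝ} {K : ℝ≥0} (hf : LipschitzWith K f) (a b : ℝ) :
    IntervalIntegrable (fun x => (deriv f x) ^ 2) volume a b := by
  have h1 : ∀ s : Set ℝ, volume s ≠ ⊤ → IntegrableOn (fun x => (deriv f x) ^ 2) s := by
    intro s hs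
    refine Measure.integrableOn_of_bounded (M := (K : ℝ) ^ 2) hs
      ((measurable_deriv f).pow_const 2).aestronglyMeasurable
      (Filter.Eventually.of_forall fun x => ?_)
    rw [Real.norm_eq_abs, abs_pow]
    exact pow_le_pow_left₀ (abs_nonneg _) (deriv_bd hf x) 2
  exact ⟨h1 _ (by simp), h1 _ (by simp)⟩

theorem ii_d {f : ℝ → ℝ} {K : ℝ≥0} (hf : LipschitzWith K f) (a b : ℝ) :
    IntervalIntegrable (deriv f) volume a b :=
  (hf.lipschitzOnWith (s := uIcc a b)).absolutelyContinuousOnInterval.intervalIntegrable_deriv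

theorem cont_ka (E : ℝ) : Continuous (ka E) := by
  unfold ka
  refine Real.continuous_sqrt.comp ?_
  exact ((continuous_const.mul
    (continuous_id.rpow_const (fun x => Or.inr (by norm_num)))).sub
      (continuous_id.pow 2)).sub continuous_const

theorem cont_c {G : ℝ → ℝ} (hG : Continuous G) : Continuous (fun x => G x ^ ((2 : ℝ) / 3)) :=
  hG.rpow_const (fun x => Or.inr (by norm_num))

theorem E_nonneg {u v : ℝ} (hu : 0 ≤ u) (huv : u ≤ v) : 0 ≤ Eu u v := by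
  unfold Eu
  have : 0 ≤ v := hu.trans huv
  positivity

theorem E_le {u v : ℝ} (hu : 0 ≤ u) (huv : u ≤ v) (h : u ^ 2 + u * v + v ^ 2 = 3) :
    Eu u v ≤ 1 := by
  unfold Eu
  have hv : 0 ≤ v := hu.trans huv
  have h1 : (u + v) / 2 ≤ 1 := by
    nlinarith [sq_nonneg (u - v), sq_nonneg (u + v)]
  have h2 : u * v ≤ 1 := by nlinarith [sq_nonneg (u - v)]
  have h3 : 0 ≤ u * v := mul_nonneg hu hv
  calc (u + v) / 2 * (u * v) ≤ 1 * 1 := mul_le_mul h1 h2 h3 (by norm_num)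
    _ = 1 := by norm_num

theorem ka_sq {u v τ : ℝ} (hu : 0 ≤ u) (huv : u ≤ v) (h : u ^ 2 + u * v + v ^ 2 = 3)
    (hτ : τ ∈ Icc (u ^ ((3 : ℝ) / 2)) (v ^ ((3 : ℝ) / 2))) :
    ka (Eu u v) τ ^ 2 = 3 * τ ^ ((2 : ℝ) / 3) - τ ^ 2 - 2 * Eu u v := by
  have hv : 0 ≤ v := hu.trans huv
  have hτ0 : 0 ≤ τ := (Real.rpow_nonneg hu _).trans hτ.1
  unfold ka
  rw [Real.sq_sqrt]
  have e : ∀ w : ℝ, 0 ≤ w → (w ^ ((3 : ℝ) / 2)) ^ ((2 : ℝ) / 3) = w := by
    intro w hw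
    rw [← Real.rpow_mul hw]
    norm_num
  have h1 : u ≤ τ ^ ((2 : ℝ) / 3) := by
    have := Real.rpow_le_rpow (Real.rpow_nonneg hu _) hτ.1 (z := (2 : ℝ) / 3) (by norm_num)
    rwa [e u hu] at this
  have h2 : τ ^ ((2 : ℝ) / 3) ≤ v := by
    have := Real.rpow_le_rpow hτ0 hτ.2 (z := (2 : ℝ) / 3) (by norm_num)
    rwa [e v hv] at this
  have e3 : τ ^ 2 = (τ ^ ((2 : ℝ) / 3)) ^ 3 := by
    rw [← Real.rpow_natCast (τ ^ ((2 : ℝ) / 3)) 3, ← Real.rpow_mul hτ0]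
    norm_num
  rw [e3]
  set y := τ ^ ((2 : ℝ) / 3)
  have e4 : 3 * y - y ^ 3 - 2 * Eu u v = (y - u) * (v - y) * (y + u + v) := by
    unfold Eu
    linear_combination (-y) * h
  rw [e4]
  have h3 : 0 ≤ y + u + v := by linarith
  exact mul_nonneg (mul_nonneg (by linarith) (by linarith)) h3

end Cell1Aux

open Cell1Aux

theorem cell_norm {G : ℝ → ℝ} (hG : ∃ K : ℝ≥0, LipschitzWith K G) {t t' u v : ℝ} (ht : t < t')
    (hu : 0 ≤ u) (huv : u ≤ v) (h : u ^ 2 + u * v + v ^ 2 = 3)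
    (hr : ∀ x ∈ Icc t t', G x ∈ Icc (u ^ ((3 : ℝ) / 2)) (v ^ ((3 : ℝ) / 2)))
    (h1 : ∃ x ∈ Icc t t', G x = u ^ ((3 : ℝ) / 2)) (h2 : ∃ x ∈ Icc t t', G x = v ^ ((3 : ℝ) / 2)) :
    2 * min (t' - t) c0 ≤
      ∫ x in t..t', ((deriv G x) ^ 2 - (G x) ^ 2 + 3 * (G x) ^ ((2 : ℝ) / 3)) := by
  obtain ⟨K, hK⟩ := hG
  obtain ⟨x1, hx1, e1⟩ := h1
  obtain ⟨x2, hx2, e2⟩ := h2
  have hE0 := E_nonneg hu huv
  have hE1 := E_le hu huv h
  have hcG : Continuous G := hK.continuous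
  have hkG : Continuous (fun x => ka (Eu u v) (G x)) := (cont_ka _).comp hcG
  have iiP : ∀ a b : ℝ, IntervalIntegrable (fun x => ka (Eu u v) (G x) * deriv G x) volume a b :=
    fun a b => (ii_d hK a b).continuousOn_mul hkG.continuousOn
  have iiA : IntervalIntegrable (fun x => |ka (Eu u v) (G x) * deriv G x|) volume t t' :=
    (iiP t t').abs
  have iiI : IntervalIntegrable
      (fun x => (deriv G x) ^ 2 - (G x) ^ 2 + 3 * (G x) ^ ((2 : ℝ) / 3)) volume t t' :=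
    ((ii_sq hK t t').sub ((hcG.pow 2).intervalIntegrable _ _)).add
      ((continuous_const.mul (cont_c hcG)).intervalIntegrable _ _)
  have hge : (∫ x in t..t', (2 * |ka (Eu u v) (G x) * deriv G x| + 2 * Eu u v)) ≤
      ∫ x in t..t', ((deriv G x) ^ 2 - (G x) ^ 2 + 3 * (G x) ^ ((2 : ℝ) / 3)) := by
    refine intervalIntegral.integral_mono_on ht.le
      ((iiA.const_mul 2).add intervalIntegrable_const) iiI (fun x hx => ?_)
    have h3 := ka_sq hu huv h (hr x hx)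
    rw [abs_mul]
    have h4 : |ka (Eu u v) (G x)| ^ 2 = ka (Eu u v) (G x) ^ 2 := sq_abs _
    have h5 : |deriv G x| ^ 2 = (deriv G x) ^ 2 := sq_abs _
    nlinarith [sq_nonneg (|ka (Eu u v) (G x)| - |deriv G x|)]
  have hsp : (∫ x in t..t', (2 * |ka (Eu u v) (G x) * deriv G x| + 2 * Eu u v)) =
      2 * (∫ x in t..t', |ka (Eu u v) (G x) * deriv G x|) + 2 * Eu u v * (t' - t) := by
    rw [intervalIntegral.integral_add (iiA.const_mul 2) intervalIntegrable_const,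
      intervalIntegral.integral_const_mul, intervalIntegral.integral_const, smul_eq_mul]
    ring
  have hsub : uIoc x1 x2 ⊆ Ioc t t' := by
    intro y hy
    rw [mem_uIoc] at hy
    rcases hy with hy | hy
    · exact ⟨hx1.1.trans_lt hy.1, hy.2.trans hx2.2⟩
    · exact ⟨hx2.1.trans_lt hy.1, hy.2.trans hx1.2⟩
  have habs : c0 * (1 - Eu u v) ≤ ∫ x in t..t', |ka (Eu u v) (G x) * deriv G x| := by
    have h6 := ftc hK (cont_ka (Eu u v)) x1 x2
    rw [e1, e2, lev hu huv h] at h6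
    have h7 := gam hu huv h
    rw [← h6] at h7
    have h8 : (∫ x in x1..x2, ka (Eu u v) (G x) * deriv G x) ≤
        ∫ x in uIoc x1 x2, ‖ka (Eu u v) (G x) * deriv G x‖ :=
      (le_abs_self _).trans (by
        rw [← Real.norm_eq_abs]
        exact intervalIntegral.norm_integral_le_integral_norm_uIoc)
    have h9 : (∫ x in uIoc x1 x2, ‖ka (Eu u v) (G x) * deriv G x‖) ≤
        ∫ x in Ioc t t', ‖ka (Eu u v) (G x) * deriv G x‖ := by
      refine setIntegral_mono_set ?_ (Filter.Eventually.of_forall fun x => norm_nonneg _)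
        hsub.eventuallyLE
      exact ((intervalIntegrable_iff_integrableOn_Ioc_of_le ht.le).1 (iiP t t')).norm
    rw [intervalIntegral.integral_of_le ht.le]
    exact h7.trans (h8.trans h9)
  refine le_trans ?_ hge
  rw [hsp]
  have hm1 := min_le_left (t' - t) c0
  have hm2 := min_le_right (t' - t) c0
  nlinarith [mul_le_mul_of_nonneg_left hm1 hE0, mul_le_mul_of_nonneg_left hm2 (sub_nonneg.2 hE1)]

theorem cell1 {F : ℝ → ℝ} (hF : ∃ K : ℝ≥0, LipschitzWith K F) (h0 : ∀ x, 0 ≤ F x) {t t' : ℝ}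
    (ht : t < t') (hne : ∃ x ∈ Icc t t', 0 < F x) :
    ∃ lam : ℝ, 0 < lam ∧ 2 * lam ^ 3 * min (t' - t) c0 ≤
      ∫ x in t..t', ((deriv F x) ^ 2 - (F x) ^ 2 + 3 * lam ^ 2 * (F x) ^ ((2 : ℝ) / 3)) := by
  obtain ⟨K, hK⟩ := hF
  have hcF : Continuous F := hK.continuous
  obtain ⟨x1, hx1, m1⟩ := (isCompact_Icc (a := t) (b := t')).exists_isMinOn
    (nonempty_Icc.2 ht.le) hcF.continuousOn
  obtain ⟨x2, hx2, m2⟩ := (isCompact_Icc (a := t) (b := t')).exists_isMaxOn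
    (nonempty_Icc.2 ht.le) hcF.continuousOn
  obtain ⟨x0, hx0, p0⟩ := hne
  have m1' : ∀ x ∈ Icc t t', F x1 ≤ F x := fun x hx => isMinOn_iff.1 m1 x hx
  have m2' : ∀ x ∈ Icc t t', F x ≤ F x2 := fun x hx => isMaxOn_iff.1 m2 x hx
  have pB : 0 < F x2 := p0.trans_le (m2' x0 hx0)
  have hA : 0 ≤ F x1 := h0 x1
  have hAB : F x1 ≤ F x2 := m1' x2 hx2
  set a : ℝ := (F x1 / F x2) ^ ((2 : ℝ) / 3) with ha
  have hq0 : 0 ≤ F x1 / F x2 := div_nonneg hA pB.le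
  have hq1 : F x1 / F x2 ≤ 1 := (div_le_one pB).2 hAB
  have ha0 : 0 ≤ a := Real.rpow_nonneg hq0 _
  have ha1 : a ≤ 1 := Real.rpow_le_one hq0 hq1 (by norm_num)
  set v : ℝ := Real.sqrt (3 / (1 + a + a ^ 2)) with hv
  have hden : 0 < 1 + a + a ^ 2 := by positivity
  have hvpos : 0 < v := Real.sqrt_pos.2 (by positivity)
  have hv2 : v ^ 2 = 3 / (1 + a + a ^ 2) := Real.sq_sqrt (by positivity)
  set w : ℝ := v ^ ((3 : ℝ) / 2) with hw
  have hwpos : 0 < w := Real.rpow_pos_of_pos hvpos _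
  set mu : ℝ := F x2 / w with hmu
  have hmupos : 0 < mu := div_pos pB hwpos
  have huv : a * v ≤ v := by nlinarith
  have hsum : (a * v) ^ 2 + a * v * v + v ^ 2 = 3 := by
    have : (a * v) ^ 2 + a * v * v + v ^ 2 = v ^ 2 * (1 + a + a ^ 2) := by ring
    rw [this, hv2]
    field_simp
  have e32 : (a * v) ^ ((3 : ℝ) / 2) = F x1 / F x2 * w := by
    have e23 : (2 : ℝ) / 3 * (3 / 2) = 1 := by norm_num
    rw [Real.mul_rpow ha0 hvpos.le, ha, ← Real.rpow_mul hq0, e23, Real.rpow_one]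
  have hGL : LipschitzWith (Real.toNNReal mu⁻¹ * K) (fun x => mu⁻¹ * F x) := by
    refine LipschitzWith.of_dist_le_mul (fun x y => ?_)
    rw [Real.dist_eq, ← mul_sub, abs_mul, abs_of_pos (inv_pos.2 hmupos), NNReal.coe_mul,
      Real.coe_toNNReal _ (inv_pos.2 hmupos).le, mul_assoc]
    refine mul_le_mul_of_nonneg_left ?_ (inv_pos.2 hmupos).le
    have := hK.dist_le_mul x y
    rwa [Real.dist_eq (F x)] at this
  have eB : mu⁻¹ * F x2 = w := by
    rw [hmu]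
    field_simp
  have eA : mu⁻¹ * F x1 = (a * v) ^ ((3 : ℝ) / 2) := by
    rw [e32, hmu]
    field_simp
  have key := cell_norm (G := fun x => mu⁻¹ * F x) ⟨_, hGL⟩ ht (mul_nonneg ha0 hvpos.le) huv hsum
    (fun x hx => ⟨by
      rw [← eA]
      exact mul_le_mul_of_nonneg_left (m1' x hx) (inv_pos.2 hmupos).le, by
      rw [← hw, ← eB]
      exact mul_le_mul_of_nonneg_left (m2' x hx) (inv_pos.2 hmupos).le⟩)
    ⟨x1, hx1, eA⟩ ⟨x2, hx2, eB⟩
  refine ⟨mu ^ ((2 : ℝ) / 3), Real.rpow_pos_of_pos hmupos _, ?_⟩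
  have l3 : (mu ^ ((2 : ℝ) / 3)) ^ 3 = mu ^ 2 := by
    rw [← Real.rpow_natCast (mu ^ ((2 : ℝ) / 3)) 3, ← Real.rpow_mul hmupos.le]
    norm_num
  rw [l3]
  have hint : (∫ x in t..t', ((deriv F x) ^ 2 - (F x) ^ 2 +
      3 * (mu ^ ((2 : ℝ) / 3)) ^ 2 * (F x) ^ ((2 : ℝ) / 3))) =
      mu ^ 2 * ∫ x in t..t', ((deriv (fun x => mu⁻¹ * F x) x) ^ 2 - (mu⁻¹ * F x) ^ 2 +
        3 * (mu⁻¹ * F x) ^ ((2 : ℝ) / 3)) := by
    rw [← intervalIntegral.integral_const_mul]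
    refine intervalIntegral.integral_congr (fun x _ => ?_)
    have d1 : deriv (fun x => mu⁻¹ * F x) x = mu⁻¹ * deriv F x := deriv_const_mul_field _
    have r1 : (mu⁻¹ * F x) ^ ((2 : ℝ) / 3) = (mu ^ ((2 : ℝ) / 3))⁻¹ * F x ^ ((2 : ℝ) / 3) := by
      rw [Real.mul_rpow (inv_pos.2 hmupos).le (h0 x), Real.inv_rpow hmupos.le]
    simp only [d1, r1]
    have l0 : mu ^ ((2 : ℝ) / 3) ≠ 0 := (Real.rpow_pos_of_pos hmupos _).ne'
    have m0 : mu ≠ 0 := hmupos.ne'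
    rw [← l3]
    have k1 : (mu ^ ((2 : ℝ) / 3)) ^ 3 * (mu⁻¹ * deriv F x) ^ 2 = (deriv F x) ^ 2 := by
      rw [l3]
      field_simp
    have k2 : (mu ^ ((2 : ℝ) / 3)) ^ 3 * (mu⁻¹ * F x) ^ 2 = (F x) ^ 2 := by
      rw [l3]
      field_simp
    have k3 : (mu ^ ((2 : ℝ) / 3)) ^ 3 * (3 * ((mu ^ ((2 : ℝ) / 3))⁻¹ * F x ^ ((2 : ℝ) / 3))) =
        3 * (mu ^ ((2 : ℝ) / 3)) ^ 2 * F x ^ ((2 : ℝ) / 3) := by
      field_simp
    rw [mul_add, mul_sub, k1, k2, k3]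
  rw [hint]
  have hm2 : 0 ≤ mu ^ 2 := by positivity
  calc 2 * mu ^ 2 * min (t' - t) c0 = mu ^ 2 * (2 * min (t' - t) c0) := by ring
    _ ≤ _ := mul_le_mul_of_nonneg_left key hm2

end PL5
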