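import Pool.Agent.Lib.PL5.Defs
import Pool.Agent.Lib.PL4.Main

/-!
Module PL5.Cuts: four vertical lines.

`PL4.cut` with `p = re` (`null_re`), `S = univ`, `n = 4`, `(k1,k2) = (1,4)`: `t1`; then `S = Hf t1 1`, `n = 4`, `(2,3)`: `t2`; then
`S = Hf t1 1 ∩ {t2 < re} = Hf t2 1`, `n = 3`, `(2,2)`: `t3`; then `S = Hf t3 1`, `n = 2`, `(2,1)`: `t4`.  `t_i < t_(i+1)` because
otherwise `Hf t_i 1 ∩ {re < t_(i+1)} = ∅` and the energy there is `0`.
-/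

open MeasureTheory Set
open scoped NNReal

namespace PL5

open DK4 PL4

namespace CutsAux

/-- a set of positive index is not empty -/
theorem nonempty_of_negT {Ω : Set ℂ} {Λ : ℝ} {k : ℕ} (hk : 1 ≤ k) {S : Set ℂ}
    (h : NegT Ω Λ k S) : S.Nonempty := by
  by_contra hne
  rw [Set.not_nonempty_iff_eq_empty] at hne
  subst hne
  obtain ⟨w, hw, hneg⟩ := h
  have h1 := hneg (fun _ => 1) (by
    intro h2
    have := congrFun h2 ⟨0, hk⟩
    simp at this)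
  simp [en] at h1

theorem Hf_neg (t : ℝ) : univ ∩ {z : ℂ | z.re < t} = Hf t (-1) := by
  ext z
  simp only [Hf, mem_inter_iff, mem_univ, true_and, mem_ofPred_eq]
  constructor
  · intro h4
    linarith
  · intro h4
    linarith

theorem Hf_pos (t : ℝ) : univ ∩ {z : ℂ | t < z.re} = Hf t 1 := by
  ext z
  simp only [Hf, mem_inter_iff, mem_univ, true_and, mem_ofPred_eq]
  constructor
  · intro h4
    linarith
  · intro h4
    linarith

theorem Hf_Sp (t s : ℝ) : Hf t 1 ∩ {z : ℂ | z.re < s} = Sp t s := by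
  ext z
  simp only [Hf, Sp, mem_inter_iff, mem_ofPred_eq]
  constructor
  · rintro ⟨h3, h4⟩
    exact ⟨by linarith, h4⟩
  · rintro ⟨h3, h4⟩
    exact ⟨by linarith, h4⟩

theorem Hf_Hf {t s : ℝ} (hts : t < s) : Hf t 1 ∩ {z : ℂ | s < z.re} = Hf s 1 := by
  ext z
  simp only [Hf, mem_inter_iff, mem_ofPred_eq]
  constructor
  · rintro ⟨h3, h4⟩
    linarith
  · intro h3
    exact ⟨by linarith, by linarith⟩

/-- one more cut of a half plane -/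
theorem cut_half {n k1 k2 : ℕ} (hk : k1 + k2 = n + 1) (h1 : 1 ≤ k1) (h2 : 1 ≤ k2) {Ω : Set ℂ}
    {Λ t : ℝ} (h : NegT Ω Λ n (Hf t 1)) :
    ∃ s : ℝ, t < s ∧ NegT Ω Λ k1 (Sp t s) ∧ NegT Ω Λ k2 (Hf s 1) := by
  obtain ⟨s, h3, h4⟩ := cut hk h1 h2 (MainAux.isOpen_Hf t 1).measurableSet
    Complex.continuous_re null_re h
  rw [Hf_Sp] at h3
  obtain ⟨z, hz1, hz2⟩ := nonempty_of_negT h1 h3
  have hts : t < s := lt_trans hz1 hz2
  rw [Hf_Hf hts] at h4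
  exact ⟨s, hts, h3, h4⟩

end CutsAux

open CutsAux in
theorem cuts {Ω : Set ℂ} {Λ : ℝ} (h : NegT Ω Λ 4 univ) :
    ∃ t1 t2 t3 t4 : ℝ, t1 < t2 ∧ t2 < t3 ∧ t3 < t4 ∧ NegT Ω Λ 1 (Hf t1 (-1)) ∧
      NegT Ω Λ 2 (Sp t1 t2) ∧ NegT Ω Λ 2 (Sp t2 t3) ∧ NegT Ω Λ 2 (Sp t3 t4) ∧
      NegT Ω Λ 1 (Hf t4 1) := by
  obtain ⟨t1, a1, b1⟩ := cut (k1 := 1) (k2 := 4) (by norm_num) (by norm_num) (by norm_num)
    MeasurableSet.univ Complex.continuous_re null_re h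
  rw [Hf_neg] at a1
  rw [Hf_pos] at b1
  obtain ⟨t2, c2, a2, b2⟩ := cut_half (k1 := 2) (k2 := 3) (by norm_num) (by norm_num)
    (by norm_num) b1
  obtain ⟨t3, c3, a3, b3⟩ := cut_half (k1 := 2) (k2 := 2) (by norm_num) (by norm_num)
    (by norm_num) b2
  obtain ⟨t4, c4, a4, b4⟩ := cut_half (k1 := 2) (k2 := 1) (by norm_num) (by norm_num)
    (by norm_num) b3
  exact ⟨t1, t2, t3, t4, c2, c3, c4, a1, a2, a3, a4, b4⟩

end PL5
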