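import Pool.Agent.Lib.PL3.Defs

/-!
# PL5 : the conjecture for sets with short sections in one direction (MP_6da7ef_an)

THEOREM D.  Let `Ω ⊂ ℂ` be open, nonempty, of finite area, and let almost every vertical line meet `Ω` in a
set of length at most `l`, `l² λ₄(Ω) < 4 π²`.  Then
`λ₄(Ω) |Ω| ≥ 2 κ + 6 π c0 = (3√3 + 15.36) π > π (j01² + j11²)`, `κ = 3√3π/2`, `c0 = 64/25`.

PROOF.  Scale such that the energy is `q = ∫ |∇u|² - u²`, sections of length `≤ 2π`, index `≥ 4`.
(1) (Cuts) vertical lines `t1 < t2 < t3 < t4`: index `≥ 1` in `{re < t1}` and `{t4 < re}`, index `≥ 2` in the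
    three strips between them.  (`4 + 1 = 1 + 4`, `4 + 1 = 2 + 3`, `3 + 1 = 2 + 2`, `2 + 1 = 2 + 1`.)
(2) (Out) a nonnegative function with negative energy on a half plane has support of area `≥ κ` there.
(3) (Strip) a nonnegative function `f` with negative energy on a vertical strip of width `w` has
    support of area `> π min(w, c0)` in the strip.
    Proof: `F(x) = (∫ f(x,y)² dy)^(1/2)`, `p(x) = |{y : f(x,y) > 0}| / π`.  Then the energy is at least
    `∫ F'² + F²/p² - F² ≥ ∫ F'² - F² + 3 lam² F^(2/3) - 2 lam³ p` for every `lam > 0`.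
(4) (Cell1) there is `lam > 0` with `∫ F'² - F² + 3 lam² F^(2/3) ≥ 2 lam³ min(w, c0)`.
    Proof: by scaling `lam = 1` and the range of `F` is `[u^(3/2), v^(3/2)]` with `u² + u v + v² = 3`; with
    `E = u v (u+v)/2`, `k(τ)² = 3 τ^(2/3) - τ² - 2E ≥ 0` on the range,
    `F'² ≥ 2 k(F) |F'| - k(F)²`, so the integral is `≥ 2 ∫ k + 2 E w` with `∫ k` over the range, and
    `∫ k ≥ c0 (1 - E)` (Lev, Gam, Poly).
(5) (Inn) index `≥ 2` in a strip of width `w`: two functions with disjoint supports and negative energy, so area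
    `> 2π min(w, c0)`.  As the area is `≤ 2π w`, `w ≥ c0` and the area is `≥ 2π c0`.
(6) sum: `|Ω| ≥ 2κ + 6π c0`.
-/

open MeasureTheory Set
open scoped ContDiff NNReal

namespace PL5

/-- vertical strip -/
def Sp (t t' : ℝ) : Set ℂ := {z | t < z.re ∧ z.re < t'}

noncomputable def c0 : ℝ := 64 / 25

noncomputable def ka (E τ : ℝ) : ℝ := Real.sqrt (3 * τ ^ ((2 : ℝ) / 3) - τ ^ 2 - 2 * E)

noncomputable def Eu (u v : ℝ) : ℝ := (u + v) / 2 * (u * v)

/-- the norm of the section -/
noncomputable def nrm (f : ℂ → ℝ) (x : ℝ) : ℝ := Real.sqrt (∫ y : ℝ, f ⟨x, y⟩ ^ 2)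

end PL5
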