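import Pool.Agent.Lib.PL3.Num
import Pool.Agent.Lib.PL5.Defs

/-!
Module PL5.Num: `π (j01² + j11²) < 2κ + 6π c0`.

`j01 < 241/100` (`J0 (241/100) < 0`, as `PL3.J0_neg2`, `j01_lt`), `j11 < 384/100` (`J1 (384/100) < 0`, as
`DK4.NumAux.J1_neg`, `DK4.j11_lt`); `2.41² + 3.84² = 20.5537 < 3√3 + 15.36 = 20.556`: `√3 ≥ 1.73205`.
(`J0 2.41 = -0.0027`, `J1 3.84 = -0.0033`.)
-/

open MeasureTheory Set

namespace PL5

open DK4 PL3

namespace NumAux

open DK4.NumAux

theorem J0_neg3 : J0 (241 / 100) < 0 := by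
  have h := (tail (t0 (241 / 100)) 8 (t0_half (by norm_num))).2
  have h2 : |t0 (241 / 100) 8| ≤ 1 / 10000 := by
    rw [t0, abs_of_nonneg (by positivity)]
    norm_num [Nat.factorial]
  have h3 : ∑ i ∈ Finset.range 8, t0 (241 / 100) i < -1 / 1000 := by
    simp only [t0, Finset.sum_range_succ, Finset.sum_range_zero, Nat.factorial]
    norm_num
  show ∑' k, t0 (241 / 100) k < 0
  have h5 := (abs_le.1 h).2
  linarith

theorem j01_lt3 : j01 < 241 / 100 := by
  by_contra hc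
  rw [not_lt] at hc
  rcases lt_or_eq_of_le hc with h | h
  · have := J0_pos_of_lt (by norm_num) h
    have := J0_neg3
    linarith
  · have h1 := J0_j01
    rw [← h] at h1
    have := J0_neg3
    linarith

theorem J1_neg3 : J1 (384 / 100) < 0 := by
  have h := (tail (t1 (384 / 100)) 10 (t1_half (by norm_num))).2
  have h2 : |t1 (384 / 100) 10| ≤ 1 / 10000 := by
    rw [t1, abs_of_nonneg (by positivity)]
    norm_num [Nat.factorial]
  have h3 : ∑ i ∈ Finset.range 10, t1 (384 / 100) i < -1 / 1000 := by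
    simp only [t1, Finset.sum_range_succ, Finset.sum_range_zero, Nat.factorial]
    norm_num
  show ∑' k, t1 (384 / 100) k < 0
  have h5 := (abs_le.1 h).2
  linarith

theorem j11_lt3 : j11 < 384 / 100 := by
  have h1 := intermediate_value_Ioo' (by norm_num : (2 : ℝ) ≤ 384 / 100) cont_J1.continuousOn
  obtain ⟨c, hc, h⟩ := h1 ⟨J1_neg3, J1_pos⟩
  have h2 : j11 ≤ c := csInf_le ⟨0, fun x hx => hx.1.le⟩ ⟨by linarith [hc.1], h⟩
  linarith [hc.2]

end NumAux

theorem num : Real.pi * (j01 ^ 2 + j11 ^ 2) < 2 * kap + 6 * (Real.pi * c0) := by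
  have h1 := NumAux.j01_lt3
  have h2 := j01_pos
  have h3 := NumAux.j11_lt3
  have h4 := j11_nonneg
  have h5 : (173205 : ℝ) / 100000 < Real.sqrt 3 := by
    rw [Real.lt_sqrt (by norm_num)]
    norm_num
  have h6 : j01 ^ 2 < (241 / 100) ^ 2 := pow_lt_pow_left₀ h1 h2.le (by norm_num)
  have h7 : j11 ^ 2 < (384 / 100) ^ 2 := pow_lt_pow_left₀ h3 h4 (by norm_num)
  have h8 : j01 ^ 2 + j11 ^ 2 < 3 * Real.sqrt 3 + 384 / 25 := by
    norm_num at h6 h7
    linarith
  have h9 : 2 * kap + 6 * (Real.pi * c0) = Real.pi * (3 * Real.sqrt 3 + 384 / 25) := by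
    unfold kap c0
    ring
  rw [h9]
  exact mul_lt_mul_of_pos_left h8 Real.pi_pos

end PL5
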