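import Pool.Agent.Lib.PL5.Thin
import Pool.Agent.Lib.PL5.Num
import Pool.Agent.Lib.PL3.Min
import Pool.Agent.Lib.PL4.SymE

/-!
Module PL5.Eig: the theorem in terms of `dirEig`.

`thinE`: suppose `dirEig 4 Ω * |Ω| < 2κ + 6π c0`.  Choose `Λ' > dirEig 4 Ω`, `Λ' > 0`, with `Λ' |Ω| < 2κ + 6π c0` and
`l² Λ' ≤ 4π²`; `PL3.negT_above`; scale by `r = (√Λ')⁻¹` (`PL3.negT_scale`, `PL3.vol_scale`): the section at `x` of the scaled
set is `{y | r (x + iy) ∈ Ω} = r⁻¹ {y | ⟨r x, y⟩ ∈ Ω}`, of measure `≤ √Λ' l ≤ 2π`.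
`thinR`: apply `thinE` to `(fun w => 0 + a * w) ⁻¹' Ω` (`SymEAux.move`, `dirEig_iso`).
`thinC`: by contradiction from `thinR` and `num`: if `dirEig 4 Ω * |Ω| < π (j01² + j11²)` then
`l² dirEig 4 Ω < 4π²`.
-/

open MeasureTheory Set
open scoped NNReal

namespace PL5

open DK4 PL4 PL3

namespace EigAux

/-- the eigenvalue is nonnegative -/
theorem eig_nonneg {Ω : Set ℂ} (hΩ : IsOpen Ω) (hne : Ω.Nonempty) : 0 ≤ dirEig 4 Ω := by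
  unfold dirEig
  apply le_csInf (exists_space 4 hΩ hne)
  rintro Λ ⟨V, hV, hVt, hq⟩
  exact level_nonneg (by norm_num) hV hVt hq

/-- a level slightly above `d` -/
theorem level {d V C L M : ℝ} (h1 : d * V < C) (h2 : L * d < M) :
    ∃ Λ : ℝ, d < Λ ∧ Λ * V < C ∧ L * Λ < M := by
  have c1 : ∀ᶠ x in nhds d, x * V < C :=
    (continuous_id.mul continuous_const).continuousAt.eventually_lt continuousAt_const h1
  have c2 : ∀ᶠ x in nhds d, L * x < M :=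
    (continuous_const.mul continuous_id).continuousAt.eventually_lt continuousAt_const h2
  have c3 := (c1.and c2).filter_mono (nhdsWithin_le_nhds (s := Ioi d))
  obtain ⟨x, hx, hx2⟩ := (c3.and self_mem_nhdsWithin).exists
  exact ⟨x, hx2, hx.1, hx.2⟩

end EigAux

open EigAux

theorem thinE {Ω : Set ℂ} (hΩ : IsOpen Ω) (hne : Ω.Nonempty) (hfin : volume Ω ≠ ⊤) {l : ℝ}
    (hl : 0 ≤ l) (hsec : ∀ᵐ x : ℝ, volume {y : ℝ | (⟨x, y⟩ : ℂ) ∈ Ω} ≤ ENNReal.ofReal l)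
    (hlt : l ^ 2 * dirEig 4 Ω < 4 * Real.pi ^ 2) :
    2 * kap + 6 * (Real.pi * c0) ≤ dirEig 4 Ω * volume.real Ω := by
  by_contra hcon
  rw [not_le] at hcon
  obtain ⟨Λ, h1, h2, h3⟩ := level hcon hlt
  have hd := eig_nonneg hΩ hne
  have hΛ : 0 < Λ := lt_of_le_of_lt hd h1
  have hN := negT_scale hΛ (negT_above hΩ hne 4 h1)
  obtain ⟨v1, v2⟩ := vol_scale (Ω := Ω) hΛ hfin
  have hr : 0 < (Real.sqrt Λ)⁻¹ := inv_pos.2 (Real.sqrt_pos.2 hΛ)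
  have hop : IsOpen {z : ℂ | (Real.sqrt Λ)⁻¹ • z ∈ Ω} := hΩ.preimage (continuous_const_smul _)
  have hs : ∀ᵐ x : ℝ, volume {y : ℝ | (⟨x, y⟩ : ℂ) ∈ {z : ℂ | (Real.sqrt Λ)⁻¹ • z ∈ Ω}} ≤
      ENNReal.ofReal (2 * Real.pi) := by
    have hq : Filter.Tendsto (fun x : ℝ => (Real.sqrt Λ)⁻¹ • x) (ae volume) (ae volume) :=
      (Measure.quasiMeasurePreserving_smul (volume : Measure ℝ) hr.ne').tendsto_ae
    filter_upwards [hq.eventually hsec] with x hx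
    have e : {y : ℝ | (⟨x, y⟩ : ℂ) ∈ {z : ℂ | (Real.sqrt Λ)⁻¹ • z ∈ Ω}} =
        (fun y : ℝ => (Real.sqrt Λ)⁻¹ • y) ⁻¹' {y : ℝ | (⟨(Real.sqrt Λ)⁻¹ • x, y⟩ : ℂ) ∈ Ω} := by
      ext y
      have : (Real.sqrt Λ)⁻¹ • (⟨x, y⟩ : ℂ) = ⟨(Real.sqrt Λ)⁻¹ • x, (Real.sqrt Λ)⁻¹ • y⟩ := by
        apply Complex.ext <;> simp
      simp only [mem_ofPred_eq, mem_preimage, this]
    change volume {y : ℝ | (⟨x, y⟩ : ℂ) ∈ {z : ℂ | (Real.sqrt Λ)⁻¹ • z ∈ Ω}} ≤ _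
    rw [e, Measure.addHaar_preimage_smul (volume : Measure ℝ) hr.ne']
    have h4 : |((Real.sqrt Λ)⁻¹ ^ Module.finrank ℝ ℝ)⁻¹| = Real.sqrt Λ := by
      rw [Module.finrank_self, pow_one, inv_inv, abs_of_nonneg (Real.sqrt_nonneg _)]
    rw [h4]
    calc ENNReal.ofReal (Real.sqrt Λ) * volume {y : ℝ | (⟨(Real.sqrt Λ)⁻¹ • x, y⟩ : ℂ) ∈ Ω}
        ≤ ENNReal.ofReal (Real.sqrt Λ) * ENNReal.ofReal l := by gcongr
      _ = ENNReal.ofReal (Real.sqrt Λ * l) := (ENNReal.ofReal_mul (Real.sqrt_nonneg _)).symm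
      _ ≤ ENNReal.ofReal (2 * Real.pi) := by
        apply ENNReal.ofReal_le_ofReal
        have h5 : (Real.sqrt Λ * l) ^ 2 ≤ (2 * Real.pi) ^ 2 := by
          rw [mul_pow, Real.sq_sqrt hΛ.le]
          nlinarith
        exact le_of_sq_le_sq h5 (by positivity)
  have h6 := thin hop v1 hs hN
  rw [v2] at h6
  linarith

theorem thinR {a : ℂ} (ha : ‖a‖ = 1) {Ω : Set ℂ} (hΩ : IsOpen Ω) (hne : Ω.Nonempty)
    (hfin : volume Ω ≠ ⊤) {l : ℝ} (hl : 0 ≤ l)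
    (hsec : ∀ᵐ x : ℝ, volume {y : ℝ | a * (⟨x, y⟩ : ℂ) ∈ Ω} ≤ ENNReal.ofReal l)
    (hlt : l ^ 2 * dirEig 4 Ω < 4 * Real.pi ^ 2) :
    2 * kap + 6 * (Real.pi * c0) ≤ dirEig 4 Ω * volume.real Ω := by
  obtain ⟨h1, h2, h3, h4⟩ := SymEAux.move (p := 0) ha hΩ hne hfin
  rw [← dirEig_iso 4 (p := 0) ha Ω, ← h4]
  rw [← dirEig_iso 4 (p := 0) ha Ω] at hlt
  refine thinE h1 h2 h3 hl ?_ hlt
  filter_upwards [hsec] with x hx
  simpa using hx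

theorem thinC {a : ℂ} (ha : ‖a‖ = 1) {Ω : Set ℂ} (hΩ : IsOpen Ω) (hne : Ω.Nonempty)
    (hfin : volume Ω ≠ ⊤) {l : ℝ} (hl : 0 ≤ l)
    (hsec : ∀ᵐ x : ℝ, volume {y : ℝ | a * (⟨x, y⟩ : ℂ) ∈ Ω} ≤ ENNReal.ofReal l)
    (hl2 : l ^ 2 * (j01 ^ 2 + j11 ^ 2) ≤ 4 * Real.pi * volume.real Ω) :
    Real.pi * (j01 ^ 2 + j11 ^ 2) ≤ dirEig 4 Ω * volume.real Ω := by
  by_contra hcon
  rw [not_le] at hcon
  have hV : 0 < volume.real Ω := vol_pos hΩ hne hfin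
  have hd := eig_nonneg hΩ hne
  have hpi := Real.pi_pos
  have hlt : l ^ 2 * dirEig 4 Ω < 4 * Real.pi ^ 2 := by
    have hJ : 0 < j01 ^ 2 + j11 ^ 2 := by
      have h1 : 0 ≤ dirEig 4 Ω * volume.real Ω := by positivity
      by_contra hc
      rw [not_lt] at hc
      nlinarith
    have h1 : l ^ 2 * (j01 ^ 2 + j11 ^ 2) * (dirEig 4 Ω * volume.real Ω) ≤
        4 * Real.pi * volume.real Ω * (dirEig 4 Ω * volume.real Ω) := by gcongr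
    rcases eq_or_lt_of_le hl with hl0 | hl0
    · rw [← hl0]
      have : 0 < Real.pi ^ 2 := by positivity
      nlinarith
    · have h2 : l ^ 2 * dirEig 4 Ω * (j01 ^ 2 + j11 ^ 2) < 4 * Real.pi ^ 2 * (j01 ^ 2 + j11 ^ 2) := by
        have h3 : l ^ 2 * dirEig 4 Ω * (j01 ^ 2 + j11 ^ 2) * volume.real Ω <
            4 * Real.pi ^ 2 * (j01 ^ 2 + j11 ^ 2) * volume.real Ω := by
          have h4 : 4 * Real.pi * volume.real Ω * (dirEig 4 Ω * volume.real Ω) <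
              4 * Real.pi * volume.real Ω * (Real.pi * (j01 ^ 2 + j11 ^ 2)) := by gcongr
          nlinarith
        exact lt_of_mul_lt_mul_right h3 hV.le
      exact lt_of_mul_lt_mul_right h2 hJ.le
  have h5 := thinR ha hΩ hne hfin hl hsec hlt
  have h6 := num
  linarith

end PL5
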