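import Pool.Agent.Lib.PL5.Poly

/-!
Module PL5.Gam: lower bound for the integral.

`m = (u+v)/2`, `d = (v-u)/2`, `3m² + d² = 3`, `Eu u v = m (m² - d²)`, `0 ≤ d ≤ m`, so `D = d² ≤ 3/4`.
Substitute `h = m + z` (`intervalIntegral.integral_comp_add_left`): the integrand is
`√(m+z) √((d+z)(d-z)(3m+z)) = √(d²-z²) √((m+z)(3m+z))` on `[-d,d]`; symmetrise `z ↦ -z`; `pw` with `y = z/m`:
`√((m+z)(3m+z)) + √((m-z)(3m-z)) ≥ 2√3 m (1 - z²/(18m²) - 13/100 z⁴/m⁴)`.
Then `∫_(-d)^d √(d²-z²) = π d²/2` (`integral_sqrt_one_sub_sq`, scaled), `∫ z² √(d²-z²) = π d⁴/8`,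
`∫ z⁴ √(d²-z²) = π d⁶/16` (integrate the derivatives of `z (d²-z²)^(3/2)` and `z³ (d²-z²)^(3/2)`; or substitute
`z = d sin φ`).  So `(3/2) ∫ ≥ (3√3/2) π m d² (1/2 - d²/(144m²) - 13/100 d⁴/(16m⁴))`, and `fin`.
-/

open MeasureTheory Set

namespace PL5

namespace GamAux

theorem cs : Continuous fun t : ℝ => Real.sqrt (1 - t ^ 2) :=
  Real.continuous_sqrt.comp (by fun_prop)

theorem ii {f : ℝ → ℝ} (hf : Continuous f) : IntervalIntegrable f volume (-1 : ℝ) 1 :=
  hf.intervalIntegrable _ _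

theorem ds {t : ℝ} (ht : t ∈ Ioo (-1 : ℝ) 1) :
    HasDerivAt (fun t : ℝ => (1 - t ^ 2) * Real.sqrt (1 - t ^ 2)) (-3 * t * Real.sqrt (1 - t ^ 2)) t := by
  have hp : 0 < 1 - t ^ 2 := by nlinarith [ht.1, ht.2]
  have h1 : HasDerivAt (fun t : ℝ => 1 - t ^ 2) (-(2 * t)) t := by
    simpa using ((hasDerivAt_pow 2 t).const_sub 1)
  have h2 := h1.mul (h1.sqrt hp.ne')
  refine h2.congr_deriv ?_
  have hs := Real.sq_sqrt hp.le
  have hs0 : Real.sqrt (1 - t ^ 2) ≠ 0 := (Real.sqrt_pos.mpr hp).ne'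
  field_simp
  rw [hs]
  ring

theorem J2 : ∫ t in (-1 : ℝ)..1, Real.sqrt (1 - t ^ 2) * t ^ 2 = Real.pi / 8 := by
  have hd : ∫ t in (-1 : ℝ)..1, (Real.sqrt (1 - t ^ 2) - 4 * (Real.sqrt (1 - t ^ 2) * t ^ 2)) = 0 := by
    have h := intervalIntegral.integral_eq_sub_of_hasDerivAt_of_le (a := -1) (b := 1)
      (f := fun t : ℝ => t * ((1 - t ^ 2) * Real.sqrt (1 - t ^ 2)))
      (f' := fun t : ℝ => Real.sqrt (1 - t ^ 2) - 4 * (Real.sqrt (1 - t ^ 2) * t ^ 2))
      (by norm_num) (by have := cs; fun_prop)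
      (fun t ht => by
        refine ((hasDerivAt_id t).mul (ds ht)).congr_deriv ?_
        simp only [id]
        ring)
      (ii (by have := cs; fun_prop))
    rw [h]
    norm_num
  rw [intervalIntegral.integral_sub (ii cs) (ii (by have := cs; fun_prop)),
    intervalIntegral.integral_const_mul, integral_sqrt_one_sub_sq] at hd
  linarith

theorem J4 : ∫ t in (-1 : ℝ)..1, Real.sqrt (1 - t ^ 2) * t ^ 4 = Real.pi / 16 := by
  have hd : ∫ t in (-1 : ℝ)..1, (3 * (Real.sqrt (1 - t ^ 2) * t ^ 2) -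
      6 * (Real.sqrt (1 - t ^ 2) * t ^ 4)) = 0 := by
    have h := intervalIntegral.integral_eq_sub_of_hasDerivAt_of_le (a := -1) (b := 1)
      (f := fun t : ℝ => t ^ 3 * ((1 - t ^ 2) * Real.sqrt (1 - t ^ 2)))
      (f' := fun t : ℝ => 3 * (Real.sqrt (1 - t ^ 2) * t ^ 2) - 6 * (Real.sqrt (1 - t ^ 2) * t ^ 4))
      (by norm_num) (by have := cs; fun_prop)
      (fun t ht => by
        refine ((hasDerivAt_pow 3 t).mul (ds ht)).congr_deriv ?_
        norm_num
        ring)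
      (ii (by have := cs; fun_prop))
    rw [h]
    norm_num
  rw [intervalIntegral.integral_sub (ii (by have := cs; fun_prop)) (ii (by have := cs; fun_prop)),
    intervalIntegral.integral_const_mul, intervalIntegral.integral_const_mul, J2] at hd
  linarith

theorem low {m d : ℝ} (hm : 0 < m) (hd : 0 ≤ d) (hdm : d ≤ m) :
    Real.sqrt 3 * m * Real.pi * (1 / 2 - d ^ 2 / (144 * m ^ 2) - 13 / 100 * (d ^ 2) ^ 2 / (16 * m ^ 4)) ≤
      ∫ t in (-1 : ℝ)..1, Real.sqrt (1 - t ^ 2) * Real.sqrt ((m + d * t) * (3 * m + d * t)) := by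
  set f : ℝ → ℝ := fun t => Real.sqrt (1 - t ^ 2) * Real.sqrt ((m + d * t) * (3 * m + d * t)) with hf
  have hfc : Continuous f := cs.mul (Real.continuous_sqrt.comp (by fun_prop))
  have hfn : Continuous fun t => f (-t) := hfc.comp continuous_neg
  have hneg : ∫ t in (-1 : ℝ)..1, f (-t) = ∫ t in (-1 : ℝ)..1, f t := by
    rw [intervalIntegral.integral_comp_neg]
    norm_num
  have hsum : ∫ t in (-1 : ℝ)..1, (f t + f (-t)) = 2 * ∫ t in (-1 : ℝ)..1, f t := by
    rw [intervalIntegral.integral_add (ii hfc) (ii hfn), hneg]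
    ring
  set a : ℝ := 2 * Real.sqrt 3 * m with ha
  set b : ℝ := d ^ 2 / (18 * m ^ 2) with hb
  set c : ℝ := 13 / 100 * (d ^ 4 / m ^ 4) with hc
  have hlow : ∫ t in (-1 : ℝ)..1, (a * (Real.sqrt (1 - t ^ 2)) - a * b * (Real.sqrt (1 - t ^ 2) * t ^ 2) -
      a * c * (Real.sqrt (1 - t ^ 2) * t ^ 4)) ≤ ∫ t in (-1 : ℝ)..1, (f t + f (-t)) := by
    refine intervalIntegral.integral_mono_on (by norm_num) (ii (by have := cs; fun_prop))
      (ii (hfc.add hfn)) fun t ht => ?_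
    have ht2 : t ^ 2 ≤ 1 := by nlinarith [ht.1, ht.2]
    have hs0 := Real.sqrt_nonneg (1 - t ^ 2)
    have hy : (d * t / m) ^ 2 ≤ 1 := by
      rw [div_pow, mul_pow, div_le_one (by positivity)]
      nlinarith [sq_nonneg d, sq_nonneg t, mul_self_nonneg (m - d)]
    have hp := pw hy
    have e1 : Real.sqrt ((m + d * t) * (3 * m + d * t)) =
        m * Real.sqrt ((1 + d * t / m) * (3 + d * t / m)) := by
      have : (m + d * t) * (3 * m + d * t) = m ^ 2 * ((1 + d * t / m) * (3 + d * t / m)) := by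
        field_simp
      rw [this, Real.sqrt_mul (sq_nonneg m), Real.sqrt_sq hm.le]
    have e2 : Real.sqrt ((m + d * (-t)) * (3 * m + d * (-t))) =
        m * Real.sqrt ((1 - d * t / m) * (3 - d * t / m)) := by
      have : (m + d * (-t)) * (3 * m + d * (-t)) = m ^ 2 * ((1 - d * t / m) * (3 - d * t / m)) := by
        field_simp
        ring
      rw [this, Real.sqrt_mul (sq_nonneg m), Real.sqrt_sq hm.le]
    have e3 : f t + f (-t) = Real.sqrt (1 - t ^ 2) * (m *
        (Real.sqrt ((1 + d * t / m) * (3 + d * t / m)) + Real.sqrt ((1 - d * t / m) * (3 - d * t / m)))) := by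
      simp only [hf]
      rw [e1, e2, neg_sq]
      ring
    have e4 : a * (Real.sqrt (1 - t ^ 2)) - a * b * (Real.sqrt (1 - t ^ 2) * t ^ 2) -
        a * c * (Real.sqrt (1 - t ^ 2) * t ^ 4) = Real.sqrt (1 - t ^ 2) * (m *
          (2 * Real.sqrt 3 * (1 - (d * t / m) ^ 2 / 18 - 13 / 100 * (d * t / m) ^ 4))) := by
      rw [ha, hb, hc]
      field_simp
    rw [e3, e4]
    exact mul_le_mul_of_nonneg_left (mul_le_mul_of_nonneg_left hp hm.le) hs0
  rw [hsum, intervalIntegral.integral_sub (ii (by have := cs; fun_prop)) (ii (by have := cs; fun_prop)),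
    intervalIntegral.integral_sub (ii (by have := cs; fun_prop)) (ii (by have := cs; fun_prop)),
    intervalIntegral.integral_const_mul, intervalIntegral.integral_const_mul,
    intervalIntegral.integral_const_mul, integral_sqrt_one_sub_sq, J2, J4] at hlow
  have e5 : a * (Real.pi / 2) - a * b * (Real.pi / 8) - a * c * (Real.pi / 16) =
      2 * (Real.sqrt 3 * m * Real.pi * (1 / 2 - d ^ 2 / (144 * m ^ 2) -
        13 / 100 * (d ^ 2) ^ 2 / (16 * m ^ 4))) := by
    rw [ha, hb, hc]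
    field_simp
    ring
  rw [e5] at hlow
  linarith

end GamAux

theorem gam {u v : ℝ} (hu : 0 ≤ u) (huv : u ≤ v) (h : u ^ 2 + u * v + v ^ 2 = 3) :
    c0 * (1 - Eu u v) ≤
      3 / 2 * ∫ h in u..v, Real.sqrt h * Real.sqrt ((h - u) * (v - h) * (h + u + v)) := by
  obtain ⟨m, hmd⟩ : ∃ m : ℝ, m = (u + v) / 2 := ⟨_, rfl⟩
  obtain ⟨d, hdd⟩ : ∃ d : ℝ, d = (v - u) / 2 := ⟨_, rfl⟩
  have hu' : u = m - d := by rw [hmd, hdd]; ring
  have hv' : v = m + d := by rw [hmd, hdd]; ring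
  have hd : 0 ≤ d := by rw [hdd]; linarith
  have hdm : d ≤ m := by linarith
  have h3 : 3 * m ^ 2 + d ^ 2 = 3 := by
    rw [hu', hv'] at h
    nlinarith
  have hm : 0 < m := by
    rcases lt_or_ge 0 m with h0 | h0
    · exact h0
    · have : m = 0 := le_antisymm h0 (hd.trans hdm)
      have hd0 : d = 0 := le_antisymm (by linarith) hd
      rw [this, hd0] at h3
      norm_num at h3
  have hD : d ^ 2 ≤ 3 / 4 := by nlinarith
  have hE : Eu u v = m * (m ^ 2 - d ^ 2) := by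
    unfold Eu
    rw [hu', hv']
    ring
  have hI : ∫ h in u..v, Real.sqrt h * Real.sqrt ((h - u) * (v - h) * (h + u + v)) =
      d ^ 2 * ∫ t in (-1 : ℝ)..1, Real.sqrt (1 - t ^ 2) * Real.sqrt ((m + d * t) * (3 * m + d * t)) := by
    have e1 : ∫ h in u..v, Real.sqrt h * Real.sqrt ((h - u) * (v - h) * (h + u + v)) =
        d * ∫ t in (-1 : ℝ)..1, (fun h => Real.sqrt h * Real.sqrt ((h - u) * (v - h) * (h + u + v)))
          (m + d * t) := by
      have e0 := intervalIntegral.mul_integral_comp_add_mul (a := -1) (b := 1)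
        (f := fun h => Real.sqrt h * Real.sqrt ((h - u) * (v - h) * (h + u + v))) d m
      rw [e0]
      congr 1 <;> linarith
    rw [e1, sq, mul_assoc]
    congr 1
    rw [← intervalIntegral.integral_const_mul]
    refine intervalIntegral.integral_congr fun t ht => ?_
    rw [uIcc_of_le (by norm_num)] at ht
    have ht2 : t ^ 2 ≤ 1 := by nlinarith [ht.1, ht.2]
    have hmt : 0 ≤ m + d * t := by nlinarith [ht.1]
    have h1t : 0 ≤ 1 - t ^ 2 := by linarith
    have e2 : (m + d * t - u) * (v - (m + d * t)) * (m + d * t + u + v) =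
        d ^ 2 * ((1 - t ^ 2) * (3 * m + d * t)) := by
      rw [hu', hv']
      ring
    simp only
    rw [e2, Real.sqrt_mul (sq_nonneg d), Real.sqrt_sq hd, Real.sqrt_mul h1t,
      Real.sqrt_mul hmt]
    ring
  have hlow := GamAux.low hm hd hdm
  have hf := fin hm (sq_nonneg d) hD (by linarith : m ^ 2 = 1 - d ^ 2 / 3)
  rw [hE, hI]
  refine hf.trans ?_
  have h2 : (0 : ℝ) ≤ 3 / 2 * d ^ 2 := by positivity
  have h4 := mul_le_mul_of_nonneg_left hlow h2
  refine le_trans (le_of_eq ?_) (h4.trans (le_of_eq ?_)) <;> ring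

end PL5
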