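import Pool.Agent.Lib.PL5.Strip
import Pool.Agent.Lib.PL4.Two
import Pool.Agent.Lib.PL4.Cell

/-!
Module PL5.Inn: index two in a strip.

`two` gives `f, g` with disjoint positivity sets inside `Ω`; `strip` for both; the sum of the two areas is at most
`volume.real (Ω ∩ Sp t t')` (as in `PL4.half2`, `CellAux.sum_le`); by Fubini and `hsec`
`volume.real (Ω ∩ Sp t t') ≤ 2π (t' - t)`.  So `min (t'-t) c0 < t' - t`, `c0 ≤ t' - t` and `min = c0`.
-/

open MeasureTheory Set
open scoped NNReal

namespace PL5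

open DK4 PL4

namespace InnAux

theorem meas_Sp (t t' : ℝ) : MeasurableSet (Sp t t') :=
  ((isOpen_lt continuous_const Complex.continuous_re).inter
    (isOpen_lt Complex.continuous_re continuous_const)).measurableSet

/-- Fubini and the bound for the sections -/
theorem area_le {Ω : Set ℂ} (hΩ : IsOpen Ω)
    (hsec : ∀ᵐ x : ℝ, volume {y : ℝ | (⟨x, y⟩ : ℂ) ∈ Ω} ≤ ENNReal.ofReal (2 * Real.pi))
    {t t' : ℝ} (ht : t < t') :
    volume.real (Ω ∩ Sp t t') ≤ 2 * Real.pi * (t' - t) := by
  have hm : MeasurableSet (Ω ∩ Sp t t') := hΩ.measurableSet.inter (meas_Sp t t')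
  have e := Complex.volume_preserving_equiv_real_prod.symm
  have hm' : MeasurableSet (Complex.measurableEquivRealProd.symm ⁻¹' (Ω ∩ Sp t t')) :=
    Complex.measurableEquivRealProd.symm.measurable hm
  have h1 : volume (Ω ∩ Sp t t') =
      ∫⁻ x : ℝ, volume (Prod.mk x ⁻¹' (Complex.measurableEquivRealProd.symm ⁻¹' (Ω ∩ Sp t t'))) := by
    rw [← e.measure_preimage hm.nullMeasurableSet, Measure.volume_eq_prod,
      Measure.prod_apply hm']
  have h2 : ∀ᵐ x : ℝ, volume (Prod.mk x ⁻¹'
      (Complex.measurableEquivRealProd.symm ⁻¹' (Ω ∩ Sp t t'))) ≤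
      (Ioo t t').indicator (fun _ => ENNReal.ofReal (2 * Real.pi)) x := by
    filter_upwards [hsec] with x hx
    by_cases hxt : x ∈ Ioo t t'
    · rw [indicator_of_mem hxt]
      refine le_trans (measure_mono ?_) hx
      intro y hy
      exact hy.1
    · rw [indicator_of_notMem hxt]
      have : Prod.mk x ⁻¹' (Complex.measurableEquivRealProd.symm ⁻¹' (Ω ∩ Sp t t')) = ∅ := by
        ext y
        simp only [mem_preimage, mem_empty_iff_false, iff_false]
        intro hy
        exact hxt hy.2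
      rw [this, measure_empty]
  have h3 : volume (Ω ∩ Sp t t') ≤ ENNReal.ofReal (2 * Real.pi * (t' - t)) := by
    rw [h1]
    refine (lintegral_mono_ae h2).trans ?_
    rw [lintegral_indicator measurableSet_Ioo, setLIntegral_const, Real.volume_Ioo,
      ← ENNReal.ofReal_mul (by positivity)]
  have h4 := ENNReal.toReal_mono ENNReal.ofReal_ne_top h3
  rw [ENNReal.toReal_ofReal (mul_nonneg (by positivity) (by linarith))] at h4
  exact h4

end InnAux

open InnAux PL4.CellAux in
theorem inner2 {Ω : Set ℂ} (hΩ : IsOpen Ω) (hfin : volume Ω ≠ ⊤)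
    (hsec : ∀ᵐ x : ℝ, volume {y : ℝ | (⟨x, y⟩ : ℂ) ∈ Ω} ≤ ENNReal.ofReal (2 * Real.pi))
    {t t' : ℝ} (ht : t < t') (h : NegT Ω 1 2 (Sp t t')) :
    2 * (Real.pi * c0) ≤ volume.real (Ω ∩ Sp t t') := by
  obtain ⟨f, g, hf, hg, f0, g0, hdis, hout, hef, heg⟩ := two (meas_Sp t t') h
  have h1 := strip hf f0 ht hef
  have h2 := strip hg g0 ht heg
  have h3 := sum_le hfin (meas_Sp t t') hf hg hdis hout
  have h4 := area_le hΩ hsec ht
  have h5 : 2 * (Real.pi * min (t' - t) c0) < volume.real (Ω ∩ Sp t t') := by linarith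
  rcases le_total (t' - t) c0 with h6 | h6
  · rw [min_eq_left h6] at h5
    linarith
  · rw [min_eq_right h6] at h5
    exact h5.le

end PL5
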