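import Pool.Agent.Lib.PL5.Defs
import Pool.Agent.Lib.PL3.Piece

/-!
Module PL5.Nrm: the norm of the section is Lipschitz and its derivative is at most the norm of `∂_x f`.

`f` is Lipschitz with compact support (`Adm`); `PieceAux.lip_x`, `lip_y`, `exists_R`, `cpt_y`.
`nrm_lip`: `|F(x)² - F(x')²| = |∫ (f-f')(f+f')| ≤ ‖f-f'‖ ‖f+f'‖ ≤ ‖f-f'‖ (F(x)+F(x'))` (Cauchy-Schwarz), and
`‖f-f'‖² ≤ 2R (K|x-x'|)²`.
`nrm_deriv`: for almost every `x`: `F` is differentiable at `x` (Rademacher) and `f` is differentiable at `⟨x,y⟩` for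
a.e. `y` (`PieceAux.ae_x`), and `N = F²` has derivative `2 ∫ f ∂_x f dy` (differentiation under the integral sign for Lipschitz
integrands, `hasDerivAt_integral_of_dominated_loc_of_lip`); so `F F' = ∫ f ∂_x f ≤ F ‖∂_x f‖`; if `F x = 0` then
`F' = 0` because `F ≥ 0` has a minimum at `x`.
-/

open MeasureTheory Set
open scoped NNReal

namespace PL5

open DK4 PL4

namespace NrmAux

open PL3 PL3.PieceAux

/-- Cauchy-Schwarz -/
theorem cs {u v : ℝ → ℝ} (hu : Integrable fun y => u y ^ 2) (hv : Integrable fun y => v y ^ 2)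
    (huv : Integrable fun y => u y * v y) :
    (∫ y, u y * v y) ^ 2 ≤ (∫ y, u y ^ 2) * ∫ y, v y ^ 2 := by
  have h : ∀ t : ℝ, 0 ≤ (∫ y, u y ^ 2) * (t * t) + (2 * ∫ y, u y * v y) * t + ∫ y, v y ^ 2 := by
    intro t
    have h0 : 0 ≤ ∫ y, (t * u y + v y) ^ 2 := integral_nonneg fun y => sq_nonneg _
    have h1 : ∫ y, (t * u y + v y) ^ 2 =
        t ^ 2 * (∫ y, u y ^ 2) + (2 * t) * (∫ y, u y * v y) + ∫ y, v y ^ 2 := by
      have i1 : Integrable fun y => t ^ 2 * u y ^ 2 := hu.const_mul _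
      have i2 : Integrable fun y => (2 * t) * (u y * v y) := huv.const_mul _
      have i3 : Integrable fun y => t ^ 2 * u y ^ 2 + (2 * t) * (u y * v y) := i1.add i2
      rw [← integral_const_mul, ← integral_const_mul, ← integral_add i1 i2,
        ← integral_add i3 hv]
      refine integral_congr_ae (Filter.Eventually.of_forall fun y => ?_)
      simp only
      ring
    rw [h1] at h0
    linarith
  have h2 := discrim_le_zero h
  unfold discrim at h2
  linarith

variable {f : ℂ → ℝ}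

theorem sec_cont (hf : Continuous f) (x : ℝ) : Continuous (fun y : ℝ => f ⟨x, y⟩) := by
  have : Continuous (fun p : ℝ × ℝ => f ⟨p.1, p.2⟩) :=
    hf.comp (Complex.equivRealProdCLM.symm.continuous)
  exact this.comp (Continuous.prodMk_right x)

theorem pt_meas (x : ℝ) : Measurable (fun y : ℝ => (⟨x, y⟩ : ℂ)) := by
  have : Continuous (fun p : ℝ × ℝ => (⟨p.1, p.2⟩ : ℂ)) :=
    Complex.equivRealProdCLM.symm.continuous
  exact (this.comp (Continuous.prodMk_right x)).measurable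

theorem int_mul (hf : Adm f) (x x' : ℝ) : Integrable (fun y : ℝ => f ⟨x, y⟩ * f ⟨x', y⟩) := by
  have c := hf.continuous
  exact ((sec_cont c x).mul (sec_cont c x')).integrable_of_hasCompactSupport
    (cpt_y hf.cpt x').mul_left

theorem int_sq (hf : Adm f) (x : ℝ) : Integrable (fun y : ℝ => f ⟨x, y⟩ ^ 2) := by
  have h := int_mul hf x x
  refine h.congr (Filter.Eventually.of_forall fun y => ?_)
  simp only
  ring

theorem nrm_nonneg (x : ℝ) : 0 ≤ nrm f x := Real.sqrt_nonneg _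

theorem nrm_sq (x : ℝ) : nrm f x ^ 2 = ∫ y : ℝ, f ⟨x, y⟩ ^ 2 :=
  Real.sq_sqrt (integral_nonneg fun _ => sq_nonneg _)

theorem sub_bd (hf : Adm f) (x x' : ℝ) :
    (nrm f x - nrm f x') ^ 2 ≤ ∫ y : ℝ, (f ⟨x, y⟩ - f ⟨x', y⟩) ^ 2 := by
  have h1 := cs (int_sq hf x) (int_sq hf x') (int_mul hf x x')
  rw [← nrm_sq, ← nrm_sq] at h1
  have h2 : ∫ y : ℝ, f ⟨x, y⟩ * f ⟨x', y⟩ ≤ nrm f x * nrm f x' := by
    have h3 : 0 ≤ nrm f x * nrm f x' := mul_nonneg (nrm_nonneg _) (nrm_nonneg _)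
    refine (le_abs_self _).trans (abs_le_of_sq_le_sq ?_ h3)
    rw [mul_pow]
    exact h1
  have h4 : ∫ y : ℝ, (f ⟨x, y⟩ - f ⟨x', y⟩) ^ 2 =
      (∫ y : ℝ, f ⟨x, y⟩ ^ 2) + (-2) * (∫ y : ℝ, f ⟨x, y⟩ * f ⟨x', y⟩) +
        ∫ y : ℝ, f ⟨x', y⟩ ^ 2 := by
    have i1 := int_sq hf x
    have i2 : Integrable (fun y : ℝ => (-2) * (f ⟨x, y⟩ * f ⟨x', y⟩)) :=
      (int_mul hf x x').const_mul _
    have i3 : Integrable (fun y : ℝ => f ⟨x, y⟩ ^ 2 + (-2) * (f ⟨x, y⟩ * f ⟨x', y⟩)) := i1.add i2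
    rw [← integral_const_mul, ← integral_add i1 i2, ← integral_add i3 (int_sq hf x')]
    refine integral_congr_ae (Filter.Eventually.of_forall fun y => ?_)
    simp only
    ring
  rw [h4, ← nrm_sq, ← nrm_sq]
  nlinarith

end NrmAux

open NrmAux PL3 PL3.PieceAux

theorem nrm_lip {f : ℂ → ℝ} (hf : Adm f) : ∃ K : ℝ≥0, LipschitzWith K (nrm f) := by
  obtain ⟨K, hK⟩ := hf.lip
  obtain ⟨R, hR0, hR⟩ := exists_R hf.cpt
  refine ⟨⟨Real.sqrt (2 * R) * K, by positivity⟩, ?_⟩
  refine LipschitzWith.of_dist_le_mul fun x x' => ?_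
  rw [Real.dist_eq, Real.dist_eq]
  change _ ≤ (Real.sqrt (2 * R) * K) * |x - x'|
  have h1 := sub_bd hf x x'
  have h2 : ∫ y : ℝ, (f ⟨x, y⟩ - f ⟨x', y⟩) ^ 2 ≤
      ∫ y : ℝ, (Icc (-R) R).indicator (fun _ => ((K : ℝ) * |x - x'|) ^ 2) y := by
    refine integral_mono_of_nonneg (Filter.Eventually.of_forall fun y => sq_nonneg _) ?_
      (Filter.Eventually.of_forall fun y => ?_)
    · exact (integrable_indicator_iff measurableSet_Icc).2
        (integrableOn_const isCompact_Icc.measure_lt_top.ne)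
    · simp only
      by_cases hy : y ∈ Icc (-R) R
      · rw [indicator_of_mem hy, ← sq_abs (f ⟨x, y⟩ - f ⟨x', y⟩)]
        refine pow_le_pow_left₀ (abs_nonneg _) ?_ 2
        have h3 := (lip_x hK y).dist_le_mul x x'
        rwa [Real.dist_eq, Real.dist_eq] at h3
      · have h4 : ∀ s : ℝ, f ⟨s, y⟩ = 0 := fun s => by
          by_contra h
          exact hy (abs_le.1 (hR s y h).2)
        rw [h4, h4, indicator_of_notMem hy]
        simp
  rw [integral_indicator measurableSet_Icc, setIntegral_const, Real.volume_real_Icc_of_le (by linarith),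
    smul_eq_mul] at h2
  refine abs_le_of_sq_le_sq ?_ (by positivity)
  refine h1.trans (h2.trans (le_of_eq ?_))
  rw [mul_pow, mul_pow, mul_pow, Real.sq_sqrt (by positivity)]
  ring

theorem nrm_deriv {f : ℂ → ℝ} (hf : Adm f) : ∀ᵐ x : ℝ, (deriv (nrm f) x) ^ 2 ≤
    ∫ y : ℝ, (deriv (fun s : ℝ => f ⟨s, y⟩) x) ^ 2 := by
  obtain ⟨KF, hKF⟩ := nrm_lip hf
  obtain ⟨K, hK⟩ := hf.lip
  obtain ⟨R, hR0, hR⟩ := exists_R hf.cpt
  have cf := hf.continuous
  obtain ⟨M, hM⟩ := cf.bounded_above_of_compact_support hf.cpt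
  have hM0 : 0 ≤ M := (norm_nonneg _).trans (hM 0)
  have hd : ∀ᵐ z : ℂ, DifferentiableAt ℝ f z := hK.ae_differentiableAt
  have hz' : ∀ z, z ∉ tsupport f → fderiv ℝ f z = 0 := fun z hz => by
    by_contra h
    exact hz (support_fderiv_subset ℝ h)
  filter_upwards [hKF.ae_differentiableAt, ae_x hd] with x hFx hx
  set g : ℝ → ℝ := fun y => fderiv ℝ f ⟨x, y⟩ 1 with hg
  have e0 : ∫ y : ℝ, (deriv (fun s : ℝ => f ⟨s, y⟩) x) ^ 2 = ∫ y : ℝ, g y ^ 2 := by
    refine integral_congr_ae ?_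
    filter_upwards [hx] with y hy
    rw [deriv_re hy]
  rw [e0]
  have gm : Measurable g := (measurable_fderiv_apply_const ℝ f (1 : ℂ)).comp (pt_meas x)
  have gb : ∀ y, |g y| ≤ K := by
    intro y
    have h1 := (fderiv ℝ f ⟨x, y⟩).le_opNorm (1 : ℂ)
    rw [norm_one, mul_one] at h1
    exact h1.trans (norm_fderiv_le_of_lipschitz ℝ hK)
  have hts : ∀ y, y ∉ Icc (-R) R → (⟨x, y⟩ : ℂ) ∉ tsupport f := by
    intro y hy h
    have hcl : tsupport f ⊆ {z : ℂ | |z.im| ≤ R} := by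
      refine closure_minimal (fun z hz => (hR z.re z.im hz).2) ?_
      exact isClosed_le (Complex.continuous_im.abs) continuous_const
    exact hy (abs_le.1 (hcl h))
  have g0 : ∀ y, y ∉ Icc (-R) R → g y = 0 := fun y hy => by
    rw [hg]
    simp only
    rw [hz' _ (hts y hy)]
    rfl
  have f0 : ∀ s y, y ∉ Icc (-R) R → f ⟨s, y⟩ = 0 := fun s y hy => by
    by_contra h
    exact hy (abs_le.1 (hR s y h).2)
  have ig : Integrable fun y => g y ^ 2 := by
    refine int_bdd (gm.pow_const 2).aestronglyMeasurable (isCompact_Icc (a := -R) (b := R))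
      (fun y hy => by simp [g0 y hy]) (C := (K:ℝ) ^ 2) (fun y => ?_)
    rw [abs_pow]
    exact pow_le_pow_left₀ (abs_nonneg _) (gb y) 2
  have ifg : Integrable fun y : ℝ => f ⟨x, y⟩ * g y := by
    refine int_bdd ((sec_cont cf x).measurable.mul gm).aestronglyMeasurable
      (isCompact_Icc (a := -R) (b := R))
      (fun y hy => by simp [g0 y hy]) (C := M * K) (fun y => ?_)
    rw [abs_mul]
    exact mul_le_mul (hM _) (gb y) (abs_nonneg _) hM0
  have hcs := cs (int_sq hf x) ig ifg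
  have key := hasDerivAt_integral_of_dominated_loc_of_lip (μ := (volume : Measure ℝ))
    (F := fun (s : ℝ) (y : ℝ) => f ⟨s, y⟩ ^ 2) (F' := fun y : ℝ => 2 * (f ⟨x, y⟩ * g y)) (x₀ := x)
    (s := univ) (bound := (Icc (-R) R).indicator fun _ => 2 * M * K) Filter.univ_mem
    (Filter.Eventually.of_forall fun s =>
      ((sec_cont cf s).pow 2).measurable.aestronglyMeasurable) (int_sq hf x)
    ((ifg.const_mul 2).aestronglyMeasurable)
    (Filter.Eventually.of_forall fun y => by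
      rw [lipschitzOnWith_univ]
      refine LipschitzWith.of_dist_le_mul fun s t => ?_
      rw [Real.dist_eq, Real.dist_eq, Real.coe_nnabs]
      by_cases hy : y ∈ Icc (-R) R
      · have h5 : 0 ≤ 2 * M * (K : ℝ) := mul_nonneg (by linarith) K.coe_nonneg
        rw [indicator_of_mem hy, abs_of_nonneg h5]
        have h3 := (lip_x hK y).dist_le_mul s t
        rw [Real.dist_eq, Real.dist_eq] at h3
        have h4 : |f ⟨s, y⟩ + f ⟨t, y⟩| ≤ 2 * M := by
          refine (abs_add_le _ _).trans ?_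
          have := hM ⟨s, y⟩
          have := hM ⟨t, y⟩
          rw [Real.norm_eq_abs] at *
          linarith
        have e : f ⟨s, y⟩ ^ 2 - f ⟨t, y⟩ ^ 2 = (f ⟨s, y⟩ + f ⟨t, y⟩) * (f ⟨s, y⟩ - f ⟨t, y⟩) := by
          ring
        have h6 : 2 * M * (K : ℝ) * |s - t| = (2 * M) * ((K : ℝ) * |s - t|) := by ring
        rw [e, abs_mul, h6]
        exact mul_le_mul h4 h3 (abs_nonneg _) (by linarith)
      · rw [f0 s y hy, f0 t y hy, indicator_of_notMem hy]
        simp)
    ((integrable_indicator_iff measurableSet_Icc).2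
      (integrableOn_const isCompact_Icc.measure_lt_top.ne))
    (by
      filter_upwards [hx] with y hy
      have h1 : HasDerivAt (fun s : ℝ => (⟨s, y⟩ : ℂ)) 1 x := by
        have h2 := (Complex.ofRealCLM.hasDerivAt (x := x)).add_const (⟨0, y⟩ : ℂ)
        refine (h2.congr_of_eventuallyEq
          (Filter.Eventually.of_forall fun s => ?_)).congr_deriv (by simp)
        apply Complex.ext <;> simp
      have h3 : HasDerivAt (fun s : ℝ => f ⟨s, y⟩) (g y) x :=
        hy.hasFDerivAt.comp_hasDerivAt x h1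
      have h4 := h3.pow 2
      refine h4.congr_deriv ?_
      simp only [Nat.cast_ofNat]
      ring)
  have hN : HasDerivAt (fun s => nrm f s ^ 2) (∫ y : ℝ, 2 * (f ⟨x, y⟩ * g y)) x := by
    have h1 := key.2
    refine h1.congr_of_eventuallyEq (Filter.Eventually.of_forall fun s => ?_)
    exact nrm_sq s
  have hN' : HasDerivAt (fun s => nrm f s ^ 2) (2 * nrm f x * deriv (nrm f) x) x := by
    have h1 := hFx.hasDerivAt.pow 2
    refine h1.congr_deriv ?_
    simp only [Nat.cast_ofNat]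
    ring
  have hU := hN.unique hN'
  rw [integral_const_mul] at hU
  have hU' : ∫ y : ℝ, f ⟨x, y⟩ * g y = nrm f x * deriv (nrm f) x := by linarith
  rw [hU', ← nrm_sq] at hcs
  rcases eq_or_lt_of_le (nrm_nonneg (f := f) x) with h | h
  · have hmin : IsLocalMin (nrm f) x := by
      refine Filter.Eventually.of_forall fun s => ?_
      rw [← h]
      exact nrm_nonneg s
    rw [hmin.deriv_eq_zero]
    have : 0 ≤ ∫ y : ℝ, g y ^ 2 := integral_nonneg fun y => sq_nonneg _
    simpa using this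
  · rw [mul_pow] at hcs
    exact le_of_mul_le_mul_left hcs (by positivity)

end PL5
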