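import Pool.Agent.Lib.PL5.Defs
import Pool.Agent.Lib.PL3.Gen
import Pool.Agent.Lib.PL3.Calib
import Pool.Agent.Lib.PL4.Two

/-!
Module PL5.Out: index one in a half plane.

`cert0`: `calib` with `ι = Unit`, `r = 1`, `g = g' = 0`, `Y = 1`, `s = 0`, `zl = 0`, `W = 1`.
`outer`: `piece_gen` with `cert0`: both alternatives give `kap ≤ ...`.
`outer1`: the energy of `u = w 0` on the half plane is the sum of those of `u⁺` and `u⁻`, so one of
them is negative.
-/

open MeasureTheory Set
open scoped NNReal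

namespace PL5

open DK4 PL4 PL3

theorem cert0 : Cert 1 0 0 1 := by
  refine calib (ι := Unit) (fun _ => 1) (fun _ _ => 0) (fun _ _ => 0) one_pos le_rfl le_rfl one_pos
    (by norm_num) (fun _ => one_pos) (fun _ => rfl) (fun _ x => hasDerivAt_const x 0)
    (fun _ => continuous_const) () rfl (fun _ => rfl) ?_ ?_
  · intro j y _ z _ _ _
    simp
  · intro z _ _
    exact ⟨(), by norm_num⟩

theorem outer {f : ℂ → ℝ} (hf : Adm f) (h0 : ∀ z, 0 ≤ f z) {t σ : ℝ} (hσ : σ = 1 ∨ σ = -1)
    (hneg : en 1 (Hf t σ) f < 0) : kap ≤ volume.real (Hf t σ ∩ {z | 0 < f z}) := by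
  rcases piece_gen cert0 hf h0 hσ hneg with h | h
  · simpa using h
  · simpa using h

namespace OutAux

theorem en_split {Λ : ℝ} {S : Set ℂ} {u : ℂ → ℝ} (hu : Adm u) :
    en Λ S u = en Λ S (fun z => max (u z) 0) + en Λ S (fun z => max (-u z) 0) := by
  have hF : Integrable fun z => ‖fderiv ℝ u z‖ ^ 2 - Λ * u z ^ 2 :=
    hu.integrable_en.sub (hu.integrable_sq.const_mul Λ)
  have m1 : MeasurableSet {z | 0 < u z} := (isOpen_lt continuous_const hu.continuous).measurableSet
  have m2 : MeasurableSet {z | u z < 0} := (isOpen_lt hu.continuous continuous_const).measurableSet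
  rw [TwoAux.en_pos hu.continuous, TwoAux.en_neg hu.continuous, ← setIntegral_indicator m1,
    ← setIntegral_indicator m2, ← integral_add (hF.indicator m1).integrableOn
      (hF.indicator m2).integrableOn, en]
  refine integral_congr_ae (ae_restrict_of_ae ?_)
  filter_upwards [hu.ae_fderiv_zero] with z hz
  rcases lt_trichotomy (u z) 0 with h | h | h
  · rw [indicator_of_notMem (s := {z | 0 < u z}) (not_lt.2 h.le),
      indicator_of_mem (s := {z | u z < 0}) h, zero_add]
  · rw [indicator_of_notMem (s := {z | 0 < u z}) (not_lt.2 h.le),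
      indicator_of_notMem (s := {z | u z < 0}) (not_lt.2 h.ge), hz h, h, norm_zero]
    ring
  · rw [indicator_of_mem (s := {z | 0 < u z}) h,
      indicator_of_notMem (s := {z | u z < 0}) (not_lt.2 h.le), add_zero]

end OutAux

theorem outer1 {Ω : Set ℂ} (hfin : volume Ω ≠ ⊤) {t σ : ℝ} (hσ : σ = 1 ∨ σ = -1)
    (h : NegT Ω 1 1 (Hf t σ)) : kap ≤ volume.real (Ω ∩ Hf t σ) := by
  obtain ⟨w, hw, hneg⟩ := h
  have h1 := hneg (fun _ => 1) (by
    intro h
    exact one_ne_zero (congrFun h 0))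
  have e1 : uc w (fun _ => (1 : ℝ)) = w 0 := by
    funext z
    simp [uc]
  rw [e1] at h1
  have hA : Adm (w 0) := (hw 0).adm
  have hz : ∀ z, z ∉ Ω → w 0 z = 0 := fun z hz =>
    image_eq_zero_of_notMem_tsupport fun h => hz ((hw 0).2.2 h)
  have hfin' : volume (Ω ∩ Hf t σ) ≠ ⊤ := ne_top_of_le_ne_top hfin (measure_mono inter_subset_left)
  have key : ∀ f : ℂ → ℝ, Adm f → (∀ z, 0 ≤ f z) → (∀ z, z ∉ Ω → f z = 0) →
      en 1 (Hf t σ) f < 0 → kap ≤ volume.real (Ω ∩ Hf t σ) := by
    intro f hf h0 hfz hn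
    refine (outer hf h0 hσ hn).trans (measureReal_mono ?_ hfin')
    rintro z ⟨hz1, hz2⟩
    refine ⟨?_, hz1⟩
    by_contra hc
    exact absurd (hfz z hc) (ne_of_gt hz2)
  rw [OutAux.en_split hA] at h1
  rcases lt_or_ge (en 1 (Hf t σ) (fun z => max (w 0 z) 0)) 0 with h2 | h2
  · exact key _ hA.pos (fun z => le_max_right _ _) (fun z hz' => by simp [hz z hz']) h2
  · exact key _ hA.neg.pos (fun z => le_max_right _ _) (fun z hz' => by simp [hz z hz'])
      (by linarith)

end PL5
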