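import Pool.Agent.Lib.PL5.Defs

/-!
Module PL5.Poly: two elementary inequalities.

`pw`: with `X = y²`, `A = √((1+y)(3+y))`, `B = √((1-y)(3-y))`: `(A + B)² = 6 + 2X + 2 √((1-X)(9-X))`, and with
`ρ = 1 - X/18 - 13/100 X²` (positive) it suffices `√((1-X)(9-X)) ≥ R := 6ρ² - 3 - X`, i.e. `R ≤ 0` or
`R² ≤ (1-X)(9-X)` (polynomial in `X ∈ [0,1]`).

`fin`: use `π ≥ 3.14159`, `√3 ≥ 1.73205`, so `3√3π ≥ 16.32`; for `D > 0` divide by `D`; `1 - m = D/(3(1+m))`,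
`D = 3(1 - m²)`, `m ∈ [√3/2, 1]`: it is a polynomial inequality in `m` (margin: `m = √3/2`: 3.4269 against 3.4133;
`m = 1`: 4.08 against 3.84, after division by `D`).
-/

open MeasureTheory Set

namespace PL5

namespace PolyAux

theorem q1 {X : ℝ} (h0 : 0 ≤ X) (h1 : X ≤ 249 / 250) :
    0 ≤ 1681 / 225 - 11458 / 2025 * X - 491287 / 182250 * X ^ 2 + 122551 / 202500 * X ^ 3 +
      114413 / 375000 * X ^ 4 - 2197 / 125000 * X ^ 5 - 257049 / 25000000 * X ^ 6 := by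
  have hs : 0 ≤ 249 / 250 - X := by linarith
  have e0 := pow_nonneg hs 6
  have e1 := mul_nonneg h0 (pow_nonneg hs 5)
  have e2 := mul_nonneg (pow_nonneg h0 2) (pow_nonneg hs 4)
  have e3 := mul_nonneg (pow_nonneg h0 3) (pow_nonneg hs 3)
  have e4 := mul_nonneg (pow_nonneg h0 4) (pow_nonneg hs 2)
  have e5 := mul_nonneg (pow_nonneg h0 5) hs
  have e6 := pow_nonneg h0 6
  linarith

theorem key1 {X : ℝ} (h0 : 0 ≤ X) (h1 : X ≤ 249 / 250) :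
    (6 * (1 - X / 18 - 13 / 100 * X ^ 2) ^ 2 - 3 - X) ^ 2 ≤ (1 - X) * (9 - X) := by
  have hQ := mul_nonneg (sq_nonneg X) (q1 h0 h1)
  have e : (1 - X) * (9 - X) - (6 * (1 - X / 18 - 13 / 100 * X ^ 2) ^ 2 - 3 - X) ^ 2 =
      X ^ 2 * (1681 / 225 - 11458 / 2025 * X - 491287 / 182250 * X ^ 2 + 122551 / 202500 * X ^ 3 +
      114413 / 375000 * X ^ 4 - 2197 / 125000 * X ^ 5 - 257049 / 25000000 * X ^ 6) := by
    ring
  linarith

theorem key2 {X : ℝ} (h0 : 249 / 250 ≤ X) (h1 : X ≤ 1) :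
    6 * (1 - X / 18 - 13 / 100 * X ^ 2) ^ 2 - 3 - X ≤ 0 := by
  have ha : 0 ≤ X - 249 / 250 := by linarith
  have hb : 0 ≤ 1 - X := by linarith
  have e0 := pow_nonneg hb 4
  have e1 := mul_nonneg ha (pow_nonneg hb 3)
  have e2 := mul_nonneg (pow_nonneg ha 2) (pow_nonneg hb 2)
  have e3 := mul_nonneg (pow_nonneg ha 3) hb
  have e4 := pow_nonneg ha 4
  linarith

theorem key3 {m : ℝ} (h0 : 866 / 1000 ≤ m) (h1 : m ≤ 1) :
    0 ≤ 2448 / 100 * (1 + m) * (m ^ 4 / 2 - 3 * (1 - m ^ 2) * m ^ 2 / 144 -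
      117 * (1 - m ^ 2) ^ 2 / 1600) - 256 / 100 * m ^ 3 * (1 + 2 * m) ^ 2 := by
  have ha : 0 ≤ m - 866 / 1000 := by linarith
  have hb : 0 ≤ 1 - m := by linarith
  have e0 := pow_nonneg hb 5
  have e1 := mul_nonneg ha (pow_nonneg hb 4)
  have e2 := mul_nonneg (pow_nonneg ha 2) (pow_nonneg hb 3)
  have e3 := mul_nonneg (pow_nonneg ha 3) (pow_nonneg hb 2)
  have e4 := mul_nonneg (pow_nonneg ha 4) hb
  have e5 := pow_nonneg ha 5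
  linarith

end PolyAux

theorem pw {y : ℝ} (h : y ^ 2 ≤ 1) :
    2 * Real.sqrt 3 * (1 - y ^ 2 / 18 - 13 / 100 * y ^ 4) ≤
      Real.sqrt ((1 + y) * (3 + y)) + Real.sqrt ((1 - y) * (3 - y)) := by
  have hy1 : -1 ≤ y := by nlinarith
  have hy2 : y ≤ 1 := by nlinarith
  have hX0 : 0 ≤ y ^ 2 := sq_nonneg y
  have ha : 0 ≤ (1 + y) * (3 + y) := mul_nonneg (by linarith) (by linarith)
  have hb : 0 ≤ (1 - y) * (3 - y) := mul_nonneg (by linarith) (by linarith)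
  have hc : 0 ≤ (1 - y ^ 2) * (9 - y ^ 2) := mul_nonneg (by linarith) (by linarith)
  have hab : Real.sqrt ((1 + y) * (3 + y)) * Real.sqrt ((1 - y) * (3 - y)) =
      Real.sqrt ((1 - y ^ 2) * (9 - y ^ 2)) := by
    rw [← Real.sqrt_mul ha]
    congr 1
    ring
  have hA := Real.sq_sqrt ha
  have hB := Real.sq_sqrt hb
  have h3 : Real.sqrt 3 ^ 2 = 3 := Real.sq_sqrt (by norm_num)
  have hR : 6 * (1 - y ^ 2 / 18 - 13 / 100 * (y ^ 2) ^ 2) ^ 2 - 3 - y ^ 2 ≤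
      Real.sqrt ((1 - y ^ 2) * (9 - y ^ 2)) := by
    rcases le_total (y ^ 2) (249 / 250) with h1 | h1
    · exact Real.le_sqrt_of_sq_le (PolyAux.key1 hX0 h1)
    · exact le_trans (PolyAux.key2 h1 h) (Real.sqrt_nonneg _)
  have hsum : 0 ≤ Real.sqrt ((1 + y) * (3 + y)) + Real.sqrt ((1 - y) * (3 - y)) :=
    add_nonneg (Real.sqrt_nonneg _) (Real.sqrt_nonneg _)
  refine le_of_sq_le_sq ?_ hsum
  have e1 : (2 * Real.sqrt 3 * (1 - y ^ 2 / 18 - 13 / 100 * y ^ 4)) ^ 2 =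
      4 * Real.sqrt 3 ^ 2 * (1 - y ^ 2 / 18 - 13 / 100 * (y ^ 2) ^ 2) ^ 2 := by ring
  have e2 : (Real.sqrt ((1 + y) * (3 + y)) + Real.sqrt ((1 - y) * (3 - y))) ^ 2 =
      Real.sqrt ((1 + y) * (3 + y)) ^ 2 + Real.sqrt ((1 - y) * (3 - y)) ^ 2 +
        2 * (Real.sqrt ((1 + y) * (3 + y)) * Real.sqrt ((1 - y) * (3 - y))) := by ring
  rw [e1, e2, hab, hA, hB, h3]
  nlinarith

theorem fin {m D : ℝ} (hm : 0 < m) (hD0 : 0 ≤ D) (hD : D ≤ 3 / 4) (h : m ^ 2 = 1 - D / 3) :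
    c0 * (1 - m * (m ^ 2 - D)) ≤ 3 * Real.sqrt 3 / 2 * Real.pi *
      (m * D * (1 / 2 - D / (144 * m ^ 2) - 13 / 100 * D ^ 2 / (16 * m ^ 4))) := by
  have hDm : D = 3 * (1 - m ^ 2) := by linarith
  have hm1 : m ≤ 1 := by nlinarith
  have hm2 : 866 / 1000 ≤ m := by nlinarith
  have hm0 : m ≠ 0 := hm.ne'
  have hg := PolyAux.key3 hm2 hm1
  have hK : 816 / 100 ≤ 3 * Real.sqrt 3 / 2 * Real.pi := by
    have h3 : 1732 / 1000 ≤ Real.sqrt 3 := Real.le_sqrt_of_sq_le (by norm_num)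
    have hpi := Real.pi_gt_d4
    nlinarith
  have hB1 : 0 ≤ m ^ 4 / 2 - 3 * (1 - m ^ 2) * m ^ 2 / 144 - 117 * (1 - m ^ 2) ^ 2 / 1600 := by
    by_contra hneg
    rw [not_le] at hneg
    have h4 : 0 ≤ 256 / 100 * m ^ 3 * (1 + 2 * m) ^ 2 := by positivity
    have h5 : 2448 / 100 * (1 + m) * (m ^ 4 / 2 - 3 * (1 - m ^ 2) * m ^ 2 / 144 -
        117 * (1 - m ^ 2) ^ 2 / 1600) < 0 := mul_neg_of_pos_of_neg (by positivity) hneg
    linarith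
  have hBk : m * D * (1 / 2 - D / (144 * m ^ 2) - 13 / 100 * D ^ 2 / (16 * m ^ 4)) =
      3 * (1 - m) * (1 + m) / m ^ 3 *
        (m ^ 4 / 2 - 3 * (1 - m ^ 2) * m ^ 2 / 144 - 117 * (1 - m ^ 2) ^ 2 / 1600) := by
    rw [hDm]
    field_simp
    ring
  have hr : 0 ≤ 1 - m := by linarith
  have hBk0 : 0 ≤ 3 * (1 - m) * (1 + m) / m ^ 3 *
      (m ^ 4 / 2 - 3 * (1 - m ^ 2) * m ^ 2 / 144 - 117 * (1 - m ^ 2) ^ 2 / 1600) :=
    mul_nonneg (by positivity) hB1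
  have hL : c0 * (1 - m * (m ^ 2 - D)) = 256 / 100 * (1 - m) * (1 + 2 * m) ^ 2 := by
    rw [hDm]
    unfold c0
    ring
  rw [hL, hBk]
  refine le_trans ?_ (mul_le_mul_of_nonneg_right hK hBk0)
  have e : 816 / 100 * (3 * (1 - m) * (1 + m) / m ^ 3 *
      (m ^ 4 / 2 - 3 * (1 - m ^ 2) * m ^ 2 / 144 - 117 * (1 - m ^ 2) ^ 2 / 1600)) -
        256 / 100 * (1 - m) * (1 + 2 * m) ^ 2 =
      (1 - m) / m ^ 3 * (2448 / 100 * (1 + m) * (m ^ 4 / 2 - 3 * (1 - m ^ 2) * m ^ 2 / 144 -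
      117 * (1 - m ^ 2) ^ 2 / 1600) - 256 / 100 * m ^ 3 * (1 + 2 * m) ^ 2) := by
    field_simp
    ring
  have hfin := mul_nonneg (show 0 ≤ (1 - m) / m ^ 3 by positivity) hg
  linarith

end PL5
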