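import Pool.Agent.Lib.PL5.Cell1
import Pool.Agent.Lib.PL5.Nrm

/-!
Module PL5.Strip: a nonnegative function with negative energy on a strip.

As `PL3.Piece` (`PieceAux`: `aa`, `fub_x`, `int_x`, `ydir`, `norm_ge`, `deriv_re`, `deriv_im`, `aa_int`, ...).
`F = nrm f`, `p = aa f / π`.  If `F = 0` on `Icc t t'` then `f = 0` on the strip and the energy is `≥ 0`; so `cell1`
gives `lam`.  For a.e. `x`: `∫ (∂_x f)² dy ≥ F'(x)²` (`nrm_deriv`), and
`∫ (∂_y f)² dy ≥ 3 lam² F(x)^(2/3) - 2 lam³ p(x)` for every `x` (if `p x = 0` then `f ⟨x,·⟩ = 0`; otherwise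
`∫ (∂_y f)² ≥ F²/p²` (`fk1` / `ydir`) and `F²/p² + 2 lam³ p ≥ 3 lam² F^(2/3)`, the inequality between the
arithmetic and the geometric mean of `F²/p², lam³ p, lam³ p`).  So
`0 > en 1 (Sp t t') f ≥ ∫_(t)^(t') (F'² - F² + 3 lam² F^(2/3)) - 2 lam³ ∫ p ≥ 2 lam³ (min (t'-t) c0 - ∫ p)` and
`∫_(t)^(t') p = volume.real (Sp t t' ∩ {0 < f}) / π`.
-/

open MeasureTheory Set
open scoped NNReal

namespace PL5

open DK4 PL4

namespace StripAux

open PL3.PieceAux

theorem nrm_nonneg (f : ℂ → ℝ) (x : ℝ) : 0 ≤ nrm f x := Real.sqrt_nonneg _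

theorem nrm_sq (f : ℂ → ℝ) (x : ℝ) : nrm f x ^ 2 = ∫ y : ℝ, f ⟨x, y⟩ ^ 2 := by
  unfold nrm
  exact Real.sq_sqrt (integral_nonneg fun y => sq_nonneg _)

theorem amgm {F p lam : ℝ} (hF : 0 ≤ F) (hp : 0 < p) (hl : 0 < lam) :
    3 * lam ^ 2 * F ^ ((2 : ℝ) / 3) ≤ F ^ 2 / p ^ 2 + 2 * lam ^ 3 * p := by
  set A : ℝ := F ^ ((2 : ℝ) / 3) with hA
  have hA0 : 0 ≤ A := Real.rpow_nonneg hF _
  have hA3 : A ^ 3 = F ^ 2 := by
    rw [hA, ← Real.rpow_natCast, ← Real.rpow_mul hF, ← Real.rpow_natCast]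
    norm_num
  rw [← hA3]
  have hB : 0 < lam * p := mul_pos hl hp
  have key : 0 ≤ (A - lam * p) ^ 2 * (A + 2 * (lam * p)) := by positivity
  have e : A ^ 3 / p ^ 2 + 2 * lam ^ 3 * p - 3 * lam ^ 2 * A =
      (A - lam * p) ^ 2 * (A + 2 * (lam * p)) / p ^ 2 := by
    field_simp
    ring
  have h2 : 0 ≤ (A - lam * p) ^ 2 * (A + 2 * (lam * p)) / p ^ 2 := by positivity
  linarith

theorem ydir2 {f : ℂ → ℝ} (hf : Adm f) (h0 : ∀ z, 0 ≤ f z) (x : ℝ) {lam : ℝ} (hl : 0 < lam) :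
    3 * lam ^ 2 * (nrm f x) ^ ((2 : ℝ) / 3) - 2 * lam ^ 3 * (aa f x / Real.pi) ≤
      ∫ y : ℝ, (deriv (fun s : ℝ => f ⟨x, s⟩) y) ^ 2 := by
  have hI : 0 ≤ ∫ y : ℝ, (deriv (fun s : ℝ => f ⟨x, s⟩) y) ^ 2 :=
    integral_nonneg fun y => sq_nonneg _
  have hN : 0 ≤ ∫ y : ℝ, f ⟨x, y⟩ ^ 2 := integral_nonneg fun y => sq_nonneg _
  have haa : 0 ≤ aa f x := measureReal_nonneg
  rcases eq_or_lt_of_le haa with h5 | h5
  · have hN0 : ∫ y : ℝ, f ⟨x, y⟩ ^ 2 = 0 := by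
      by_contra hne
      have hpos : 0 < ∫ y : ℝ, f ⟨x, y⟩ ^ 2 := lt_of_le_of_ne hN (Ne.symm hne)
      have h := ydir hf h0 (x := x)
        (c := ((∫ y : ℝ, (deriv (fun s : ℝ => f ⟨x, s⟩) y) ^ 2) + 1) / ∫ y : ℝ, f ⟨x, y⟩ ^ 2)
        (fun h => absurd h (by rw [← h5]; exact lt_irrefl _))
      rw [div_mul_cancel₀ _ hpos.ne'] at h
      linarith
    have hF : nrm f x = 0 := by
      unfold nrm
      rw [hN0, Real.sqrt_zero]
    rw [hF, ← h5, Real.zero_rpow (by norm_num)]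
    simpa using hI
  · have h := ydir hf h0 (x := x) (c := Real.pi ^ 2 / (aa f x) ^ 2) (fun _ => le_rfl)
    have hp : 0 < aa f x / Real.pi := div_pos h5 Real.pi_pos
    have h2 := amgm (nrm_nonneg f x) hp hl
    have h3 : nrm f x ^ 2 / (aa f x / Real.pi) ^ 2 = Real.pi ^ 2 / (aa f x) ^ 2 * ∫ y : ℝ, f ⟨x, y⟩ ^ 2 := by
      rw [nrm_sq]
      have := Real.pi_pos.ne'
      field_simp
    rw [h3] at h2
    linarith

end StripAux

open StripAux PL3.PieceAux in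
theorem strip {f : ℂ → ℝ} (hf : Adm f) (h0 : ∀ z, 0 ≤ f z) {t t' : ℝ} (ht : t < t')
    (hneg : en 1 (Sp t t') f < 0) :
    Real.pi * min (t' - t) c0 < volume.real (Sp t t' ∩ {z | 0 < f z}) := by
  have cf := hf.continuous
  have hcpt := hf.cpt
  have s1 : Sp t t' = {z : ℂ | z.re ∈ Ioo t t'} := rfl
  rw [s1] at hneg ⊢
  rw [← aa_int cf hcpt (Ioo t t') measurableSet_Ioo]
  obtain ⟨K, hK⟩ := hf.lip
  obtain ⟨R, hR0, hR⟩ := exists_R hcpt
  obtain ⟨M, hM⟩ := cf.bounded_above_of_compact_support hcpt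
  have hz' : ∀ z, z ∉ tsupport f → fderiv ℝ f z = 0 := fun z hz => by
    by_contra h
    exact hz (support_fderiv_subset ℝ h)
  have hb : ∀ z (w : ℂ), ‖w‖ = 1 → |fderiv ℝ f z w| ≤ K := by
    intro z w hw
    have h1 := (fderiv ℝ f z).le_opNorm w
    rw [hw, mul_one] at h1
    exact h1.trans (norm_fderiv_le_of_lipschitz ℝ hK)
  have iw : ∀ w : ℂ, ‖w‖ = 1 → Integrable (fun z => (fderiv ℝ f z w) ^ 2) := by
    intro w hw
    refine int_bdd ((measurable_fderiv_apply_const ℝ f w).pow_const 2).aestronglyMeasurable hcpt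
      (fun z h => by simp [hz' z h]) (C := (K:ℝ) ^ 2) (fun z => ?_)
    rw [abs_pow]
    exact pow_le_pow_left₀ (abs_nonneg _) (hb z w hw) 2
  have iP := iw 1 (by simp)
  have iQ := iw Complex.I (by simp)
  have iF := hf.integrable_sq
  have hd : ∀ᵐ z : ℂ, DifferentiableAt ℝ f z := hK.ae_differentiableAt
  have eF : ∫ z in {z : ℂ | z.re ∈ Ioo t t'}, f z ^ 2 = ∫ x in Ioo t t', nrm f x ^ 2 := by
    rw [fub_x _ iF]
    refine integral_congr_ae (Filter.Eventually.of_forall fun x => ?_)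
    simp only
    rw [nrm_sq]
  have e2 : en 1 {z : ℂ | z.re ∈ Ioo t t'} f =
      (∫ z in {z : ℂ | z.re ∈ Ioo t t'}, ‖fderiv ℝ f z‖ ^ 2) -
        ∫ z in {z : ℂ | z.re ∈ Ioo t t'}, f z ^ 2 := by
    unfold en
    rw [← integral_sub hf.integrable_en.integrableOn iF.integrableOn]
    simp only [one_mul]
  have hne : ∃ x ∈ Icc t t', 0 < nrm f x := by
    by_contra hcon
    have hz : ∫ x in Ioo t t', nrm f x ^ 2 = 0 := by
      rw [setIntegral_congr_fun measurableSet_Ioo (g := fun _ => (0 : ℝ))]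
      · simp
      · intro x hx
        have h1 : ¬ 0 < nrm f x := fun h => hcon ⟨x, Ioo_subset_Icc_self hx, h⟩
        have h2 : nrm f x = 0 := le_antisymm (not_lt.1 h1) (nrm_nonneg f x)
        simp [h2]
    rw [e2, eF, hz, sub_zero] at hneg
    have : 0 ≤ ∫ z in {z : ℂ | z.re ∈ Ioo t t'}, ‖fderiv ℝ f z‖ ^ 2 :=
      integral_nonneg fun z => sq_nonneg _
    linarith
  have hLip := nrm_lip hf
  obtain ⟨lam, hlam, hcell⟩ := cell1 hLip (nrm_nonneg f) ht hne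
  obtain ⟨L, hL⟩ := hLip
  have cF : Continuous (nrm f) := hL.continuous
  rw [intervalIntegral.integral_of_le ht.le, integral_Ioc_eq_integral_Ioo] at hcell
  have hfin : volume (Ioo t t') ≠ ⊤ := by
    rw [Real.volume_Ioo]
    exact ENNReal.ofReal_ne_top
  have : IsFiniteMeasure (volume.restrict (Ioo t t')) := ⟨by
    rw [Measure.restrict_apply_univ]
    exact lt_of_le_of_ne le_top hfin⟩
  -- integrability on the interval
  have j1 : IntegrableOn (fun x => (deriv (nrm f) x) ^ 2) (Ioo t t') := by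
    refine Measure.integrableOn_of_bounded (M := (L:ℝ) ^ 2) hfin
      ((measurable_deriv (nrm f)).pow_const 2).aestronglyMeasurable
      (Filter.Eventually.of_forall fun x => ?_)
    rw [norm_pow]
    exact pow_le_pow_left₀ (norm_nonneg _) (norm_deriv_le_of_lipschitz hL) 2
  have j2 : IntegrableOn (fun x => nrm f x ^ 2) (Ioo t t') :=
    ((cF.pow 2).integrableOn_Icc (a := t) (b := t')).mono_set Ioo_subset_Icc_self
  have j3 : IntegrableOn (fun x => 3 * lam ^ 2 * (nrm f x) ^ ((2 : ℝ) / 3)) (Ioo t t') := by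
    have : Continuous (fun x => 3 * lam ^ 2 * (nrm f x) ^ ((2 : ℝ) / 3)) :=
      continuous_const.mul (cF.rpow_const fun x => Or.inr (by norm_num))
    exact (this.integrableOn_Icc (a := t) (b := t')).mono_set Ioo_subset_Icc_self
  have j4 : IntegrableOn (aa f) (Ioo t t') := by
    obtain ⟨Ma, hMa⟩ := aa_bdd hcpt
    refine Measure.integrableOn_of_bounded (M := Ma) hfin (aa_meas cf).aestronglyMeasurable
      (Filter.Eventually.of_forall fun x => ?_)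
    have haa : 0 ≤ aa f x := measureReal_nonneg
    rw [Real.norm_eq_abs, abs_of_nonneg haa]
    exact hMa x
  have j5 : IntegrableOn (fun x => 2 * lam ^ 3 * (aa f x / Real.pi)) (Ioo t t') :=
    (j4.div_const _).const_mul _
  -- direction `x`
  have A1 : ∫ x in Ioo t t', (deriv (nrm f) x) ^ 2 ≤
      ∫ z in {z : ℂ | z.re ∈ Ioo t t'}, (fderiv ℝ f z 1) ^ 2 := by
    rw [fub_x _ iP]
    refine setIntegral_mono_on_ae j1 (int_x _ iP) measurableSet_Ioo ?_
    filter_upwards [ae_x hd, nrm_deriv hf] with x hx1 hx2 _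
    refine hx2.trans (le_of_eq ?_)
    refine integral_congr_ae ?_
    filter_upwards [hx1] with y hy
    rw [deriv_re hy]
  -- direction `y`
  have A2 : ∫ x in Ioo t t', (3 * lam ^ 2 * (nrm f x) ^ ((2 : ℝ) / 3) -
        2 * lam ^ 3 * (aa f x / Real.pi)) ≤
      ∫ z in {z : ℂ | z.re ∈ Ioo t t'}, (fderiv ℝ f z Complex.I) ^ 2 := by
    rw [fub_x _ iQ]
    refine setIntegral_mono_on_ae (j3.sub j5) (int_x _ iQ) measurableSet_Ioo ?_
    filter_upwards [ae_x hd] with x hx1 _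
    refine (ydir2 hf h0 x hlam).trans (le_of_eq ?_)
    refine integral_congr_ae ?_
    filter_upwards [hx1] with y hy
    rw [deriv_im hy]
  have e3 : (∫ z in {z : ℂ | z.re ∈ Ioo t t'}, (fderiv ℝ f z 1) ^ 2) +
      (∫ z in {z : ℂ | z.re ∈ Ioo t t'}, (fderiv ℝ f z Complex.I) ^ 2) ≤
      ∫ z in {z : ℂ | z.re ∈ Ioo t t'}, ‖fderiv ℝ f z‖ ^ 2 := by
    rw [← integral_add iP.integrableOn iQ.integrableOn]
    exact integral_mono (iP.integrableOn.add iQ.integrableOn) hf.integrable_en.integrableOn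
      fun z => norm_ge _
  have e4 : ∫ x in Ioo t t', (3 * lam ^ 2 * (nrm f x) ^ ((2 : ℝ) / 3) -
        2 * lam ^ 3 * (aa f x / Real.pi)) =
      (∫ x in Ioo t t', 3 * lam ^ 2 * (nrm f x) ^ ((2 : ℝ) / 3)) -
        2 * lam ^ 3 * ((∫ x in Ioo t t', aa f x) / Real.pi) := by
    rw [integral_sub j3 j5]
    congr 1
    rw [← integral_div, ← integral_const_mul]
  have e5 : ∫ x in Ioo t t', ((deriv (nrm f) x) ^ 2 - (nrm f x) ^ 2 +
        3 * lam ^ 2 * (nrm f x) ^ ((2 : ℝ) / 3)) =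
      (∫ x in Ioo t t', (deriv (nrm f) x) ^ 2) - (∫ x in Ioo t t', nrm f x ^ 2) +
        ∫ x in Ioo t t', 3 * lam ^ 2 * (nrm f x) ^ ((2 : ℝ) / 3) := by
    have j6 : IntegrableOn (fun x => (deriv (nrm f) x) ^ 2 - nrm f x ^ 2) (Ioo t t') := j1.sub j2
    rw [integral_add j6 j3, integral_sub j1 j2]
  rw [e5] at hcell
  rw [e4] at A2
  rw [e2, eF] at hneg
  have h1 : 2 * lam ^ 3 * min (t' - t) c0 < 2 * lam ^ 3 * ((∫ x in Ioo t t', aa f x) / Real.pi) := by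
    linarith
  have h2 : min (t' - t) c0 < (∫ x in Ioo t t', aa f x) / Real.pi :=
    lt_of_mul_lt_mul_left h1 (by positivity)
  rw [lt_div_iff₀ Real.pi_pos] at h2
  linarith

end PL5
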