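import Pool.Agent.Lib.PL5.Inn
import Pool.Agent.Lib.PL5.Out
import Pool.Agent.Lib.PL5.Cuts

/-!
Module PL5.Thin: the sum over the five cells (disjoint parts of `Ω`).
-/

open MeasureTheory Set
open scoped NNReal

namespace PL5

open DK4 PL4 PL3

namespace ThinAux

theorem meas_Hf' (t σ : ℝ) : MeasurableSet (Hf t σ) := by
  have : Measurable (fun z : ℂ => σ * (z.re - t)) := by fun_prop
  exact measurableSet_lt measurable_const this

theorem meas_Sp (t t' : ℝ) : MeasurableSet (Sp t t') :=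
  (measurableSet_lt measurable_const Complex.measurable_re).inter
    (measurableSet_lt Complex.measurable_re measurable_const)

/-- additivity on two disjoint pieces -/
theorem add_le {A B C : Set ℂ} (hB : MeasurableSet B) (hd : Disjoint A B) (hAC : A ⊆ C) (hBC : B ⊆ C)
    (hC : volume C ≠ ⊤) : volume.real A + volume.real B ≤ volume.real C := by
  have hA' : volume A ≠ ⊤ := ne_top_of_le_ne_top hC (measure_mono hAC)
  have hB' : volume B ≠ ⊤ := ne_top_of_le_ne_top hC (measure_mono hBC)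
  rw [← measureReal_union hd hB hA' hB']
  exact measureReal_mono (union_subset hAC hBC) hC

end ThinAux

open ThinAux in
theorem thin {Ω : Set ℂ} (hΩ : IsOpen Ω) (hfin : volume Ω ≠ ⊤)
    (hsec : ∀ᵐ x : ℝ, volume {y : ℝ | (⟨x, y⟩ : ℂ) ∈ Ω} ≤ ENNReal.ofReal (2 * Real.pi))
    (h : NegT Ω 1 4 univ) : 2 * kap + 6 * (Real.pi * c0) ≤ volume.real Ω := by
  obtain ⟨t1, t2, t3, t4, h12, h23, h34, n1, n2, n3, n4, n5⟩ := cuts h
  have a1 := outer1 hfin (Or.inr rfl) n1
  have a5 := outer1 hfin (Or.inl rfl) n5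
  have a2 := inner2 hΩ hfin hsec h12 n2
  have a3 := inner2 hΩ hfin hsec h23 n3
  have a4 := inner2 hΩ hfin hsec h34 n4
  have hm := hΩ.measurableSet
  have s4 : volume.real (Ω ∩ Sp t3 t4) + volume.real (Ω ∩ Hf t4 1)
      ≤ volume.real (Ω ∩ {z : ℂ | t3 < z.re}) := by
    refine add_le (hm.inter (meas_Hf' _ _)) ?_ ?_ ?_ (ne_top_of_le_ne_top hfin (measure_mono inter_subset_left))
    · rw [Set.disjoint_left]
      rintro z ⟨_, hz⟩ ⟨_, hz'⟩
      simp only [Sp, Hf, mem_setOf_eq] at hz hz'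
      linarith [hz.2]
    · rintro z ⟨hz0, hz⟩
      exact ⟨hz0, hz.1⟩
    · rintro z ⟨hz0, hz⟩
      simp only [Hf, mem_setOf_eq] at hz
      exact ⟨hz0, by simp only [mem_setOf_eq]; linarith⟩
  have s3 : volume.real (Ω ∩ Sp t2 t3) + volume.real (Ω ∩ {z : ℂ | t3 < z.re})
      ≤ volume.real (Ω ∩ {z : ℂ | t2 < z.re}) := by
    refine add_le (hm.inter (measurableSet_lt measurable_const Complex.measurable_re)) ?_ ?_ ?_
      (ne_top_of_le_ne_top hfin (measure_mono inter_subset_left))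
    · rw [Set.disjoint_left]
      rintro z ⟨_, hz⟩ ⟨_, hz'⟩
      simp only [Sp, mem_setOf_eq] at hz hz'
      linarith [hz.2]
    · rintro z ⟨hz0, hz⟩
      exact ⟨hz0, hz.1⟩
    · rintro z ⟨hz0, hz⟩
      simp only [mem_setOf_eq] at hz
      exact ⟨hz0, by simp only [mem_setOf_eq]; linarith⟩
  have s2 : volume.real (Ω ∩ Sp t1 t2) + volume.real (Ω ∩ {z : ℂ | t2 < z.re})
      ≤ volume.real (Ω ∩ {z : ℂ | t1 < z.re}) := by
    refine add_le (hm.inter (measurableSet_lt measurable_const Complex.measurable_re)) ?_ ?_ ?_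
      (ne_top_of_le_ne_top hfin (measure_mono inter_subset_left))
    · rw [Set.disjoint_left]
      rintro z ⟨_, hz⟩ ⟨_, hz'⟩
      simp only [Sp, mem_setOf_eq] at hz hz'
      linarith [hz.2]
    · rintro z ⟨hz0, hz⟩
      exact ⟨hz0, hz.1⟩
    · rintro z ⟨hz0, hz⟩
      simp only [mem_setOf_eq] at hz
      exact ⟨hz0, by simp only [mem_setOf_eq]; linarith⟩
  have s1 : volume.real (Ω ∩ Hf t1 (-1)) + volume.real (Ω ∩ {z : ℂ | t1 < z.re})
      ≤ volume.real Ω := by
    refine add_le (hm.inter (measurableSet_lt measurable_const Complex.measurable_re)) ?_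
      inter_subset_left inter_subset_left hfin
    rw [Set.disjoint_left]
    rintro z ⟨_, hz⟩ ⟨_, hz'⟩
    simp only [Hf, mem_setOf_eq] at hz hz'
    linarith
  linarith

end PL5
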